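import Pool.Agent.Lib.UNJ.Stat
import Pool.Agent.Lib.UNIT.Basic

/-!
# UNJ: the two kinds of blocks
-/

set_option autoImplicit false

open scoped TensorProduct ComplexConjugate
open Complex Pool.Agent.HCM Pool.Agent.RAT Pool.Agent.UNIT

namespace Pool.Agent.UNJ

noncomputable section

section block

variable {F G : Type} [Field F] [NumberField F] {ι : G → G} {h : G → F}

theorem IsBlock.ne (hb : IsBlock ι h) (g : G) : h g ≠ 0 := hb.1 g

theorem IsBlock.inv (hb : IsBlock ι h) (g : G) : ι (ι g) = g := by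
  rcases hb.2 with ⟨_, h1⟩ | ⟨_, h1⟩
  · rw [(h1 g).1, (h1 g).1]
  · exact (h1 g).1

/-- Complex conjugation comes from an endomorphism `c` of `F`. -/
theorem IsBlock.exists_conj (hb : IsBlock ι h) :
    ∃ c : F →+* F, (∀ x, c (c x) = x) ∧ ∀ τ : F →+* ℂ, cj τ = τ.comp c := by
  rcases hb.2 with ⟨hF, _⟩ | ⟨hF, _⟩
  · refine ⟨(NumberField.IsCMField.complexConj F : F ≃ₐ[_] F).toRingEquiv.toRingHom,
      fun x => NumberField.IsCMField.complexConj_apply_apply F x, fun τ => ?_⟩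
    ext x
    exact (NumberField.IsCMField.complexEmbedding_complexConj F τ x).symm
  · refine ⟨RingHom.id F, fun x => rfl, fun τ => ?_⟩
    have h1 := NumberField.IsTotallyReal.complexEmbedding_isReal τ
    rw [RingHom.comp_id]
    exact h1

/-- `cj τ (h (ι g)) = ε * τ (h g)`, `ε = 1` (hermitian) or `ε = -1` (alternating). -/
theorem IsBlock.sign (hb : IsBlock ι h) :
    ∃ ε : ℂ, (ε = 1 ∨ ε = -1) ∧ ∀ (τ : F →+* ℂ) (g : G), cj τ (h (ι g)) = ε * τ (h g) := by
  rcases hb.2 with ⟨_, h1⟩ | ⟨hF, h1⟩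
  · refine ⟨1, Or.inl rfl, fun τ g => ?_⟩
    rw [(h1 g).1, one_mul]
    exact Complex.conj_eq_iff_im.2 ((h1 g).2 τ)
  · refine ⟨-1, Or.inr rfl, fun τ g => ?_⟩
    have h2 : cj τ = τ := NumberField.IsTotallyReal.complexEmbedding_isReal τ
    rw [h2, (h1 g).2, map_neg, neg_one_mul]

theorem IsBlock.cm [Nonempty G] (hb : IsBlock ι h) (hi : ∀ g, ι g = g) :
    NumberField.IsCMField F := by
  rcases hb.2 with ⟨hF, _⟩ | ⟨_, h1⟩
  · exact hF
  · obtain ⟨g⟩ := ‹Nonempty G›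
    exfalso
    have h2 := (h1 g).2
    rw [hi g] at h2
    exact hb.1 g (self_eq_neg.1 h2)

end block

end

end Pool.Agent.UNJ
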