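import Pool.Agent.Lib.UNJ.Rows
import Pool.Agent.Lib.UNIT.UC

/-!
# UNJ, row UC: the rational Lie algebras `𝔰𝔲`, `𝔰𝔭` and the root vectors (helper36)
-/

set_option autoImplicit false

open scoped TensorProduct ComplexConjugate
open Complex Pool.Agent.HCM Pool.Agent.RAT Pool.Agent.UNIT

namespace Pool.Agent.UNJ

noncomputable section

namespace UCx

variable {κ : Type} {K G : κ → Type} [∀ k, Field (K k)]

open Classical in
/-- `l E_(g,g') + m E_(a,b)` in the block `k` -/
def mx (k : κ) (g g' a b : G k) (l m : K k) : ∀ k, Matrix (G k) (G k) (K k) :=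
  Function.update (fun _ => 0) k (Matrix.single g g' l + Matrix.single a b m)

theorem mx_self (k : κ) (g g' a b : G k) (l m : K k) :
    mx k g g' a b l m k = by classical exact Matrix.single g g' l + Matrix.single a b m := by
  classical
  unfold mx
  rw [Function.update_self]

theorem mx_ne (k : κ) (g g' a b : G k) (l m : K k) {k' : κ} (h : k' ≠ k) :
    mx k g g' a b l m k' = 0 := by
  classical
  unfold mx
  rw [Function.update_of_ne h]

theorem isSU_mx [∀ k, Fintype (G k)] (ι : ∀ k, G k → G k) (h : ∀ k, G k → K k) (k : κ)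
    (hι : ∀ g, ι k (ι k g) = g) (g g' : G k) (hg : g ≠ g') (l m : K k)
    (h1 : ∀ τ : K k →+* ℂ, τ (h k g * l) + conj (τ m) * τ (h k g') = 0)
    (h2 : ∀ τ : K k →+* ℂ, τ (h k (ι k g') * m) + conj (τ l) * τ (h k (ι k g)) = 0) :
    IsSU ι h (mx k g g' (ι k g') (ι k g) l m) := by
  classical
  have hinj : ∀ a b : G k, ι k a = b ↔ a = ι k b := by
    intro a b
    constructor
    · intro h; rw [← h, hι]
    · intro h; rw [h, hι]
  intro k'
  by_cases hk : k' = k
  · subst hk
    rw [mx_self]
    refine ⟨?_, ?_⟩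
    · rw [Matrix.trace_add, Matrix.trace_single_eq_of_ne _ _ _ hg,
        Matrix.trace_single_eq_of_ne _ _ _ (fun h3 => hg.symm ?_), add_zero]
      rw [hinj, hι] at h3
      exact h3
    · intro τ a b
      have e1 : (if g = a ∧ g' = b then l else 0 : K k') = if a = g ∧ b = g' then l else 0 := by
        simp only [eq_comm]
      have e2 : (if ι k' g' = a ∧ ι k' g = b then m else 0 : K k') =
          if a = ι k' g' ∧ b = ι k' g then m else 0 := by
        simp only [eq_comm]
      have e3 : (if g = ι k' b ∧ g' = ι k' a then l else 0 : K k') =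
          if a = ι k' g' ∧ b = ι k' g then l else 0 := by
        refine if_congr ?_ rfl rfl
        constructor
        · rintro ⟨h3, h4⟩
          exact ⟨by rw [h4, hι], by rw [h3, hι]⟩
        · rintro ⟨h3, h4⟩
          exact ⟨by rw [h4, hι], by rw [h3, hι]⟩
      have e4 : (if ι k' g' = ι k' b ∧ ι k' g = ι k' a then m else 0 : K k') =
          if a = g ∧ b = g' then m else 0 := by
        refine if_congr ?_ rfl rfl
        constructor
        · rintro ⟨h3, h4⟩
          exact ⟨by rw [← hι a, ← h4, hι], by rw [← hι b, ← h3, hι]⟩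
        · rintro ⟨h3, h4⟩
          exact ⟨by rw [h4], by rw [h3]⟩
      simp only [Matrix.add_apply, Matrix.single_apply]
      rw [e1, e2, e3, e4]
      have hP : τ (h k' a * if a = g ∧ b = g' then l else 0) +
          conj (τ (if a = g ∧ b = g' then m else 0)) * τ (h k' b) = 0 := by
        by_cases hp : a = g ∧ b = g'
        · rw [if_pos hp, if_pos hp, hp.1, hp.2]
          exact h1 τ
        · rw [if_neg hp, if_neg hp]
          simp
      have hQ : τ (h k' a * if a = ι k' g' ∧ b = ι k' g then m else 0) +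
          conj (τ (if a = ι k' g' ∧ b = ι k' g then l else 0)) * τ (h k' b) = 0 := by
        by_cases hp : a = ι k' g' ∧ b = ι k' g
        · rw [if_pos hp, if_pos hp, hp.1, hp.2]
          exact h2 τ
        · rw [if_neg hp, if_neg hp]
          simp
      rw [mul_add, map_add, map_add, map_add, add_mul]
      linear_combination hP + hQ
  · rw [mx_ne _ _ _ _ _ _ _ hk]
    refine ⟨Matrix.trace_zero _ _, fun τ a b => by simp⟩

end UCx


/-- Row UC. -/
theorem uc : UC := by
  classical
  intro κ _ _ K G _ _ _ ι h hb T _ _ u hu k g g' τ hg t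
  have hι : ∀ g, ι k (ι k g) = g := (hb k).inv
  obtain ⟨c, hc, hcj⟩ := (hb k).exists_conj
  obtain ⟨ε, -, hε⟩ := (hb k).sign
  have hne : ∀ (g : G k) (τ : K k →+* ℂ), τ (h k g) ≠ 0 := by
    intro g τ
    exact (map_ne_zero τ).2 ((hb k).ne g)
  have hcc : ∀ τ : K k →+* ℂ, cj (cj τ) = τ := by
    intro τ
    ext x
    simp [cj]
  have hε' : ∀ (τ : K k →+* ℂ) (g : G k), τ (h k (ι k g)) = ε * (cj τ) (h k g) := by
    intro τ g
    have h3 := hε (cj τ) g
    rw [hcc] at h3
    exact h3
  refine UNIT.UCx.coeff_eq_zero (fun τ => root ι h k g g' τ u t) ?_ τ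
  intro l
  let m : K k := -c (h k g / h k g' * l)
  have hm : ∀ τ : K k →+* ℂ, τ m = -((cj τ) (h k g) / (cj τ) (h k g') * (cj τ) l) := by
    intro τ
    rw [hcj τ]
    simp only [m, map_neg, map_mul, map_div₀, RingHom.comp_apply]
  have hcm : ∀ τ : K k →+* ℂ, (cj τ) m = -(τ (h k g) / τ (h k g') * τ l) := by
    intro τ
    rw [hm, hcc]
  have hsu : IsSU ι h (UNJ.UCx.mx k g g' (ι k g') (ι k g) l m) := by
    apply UNJ.UCx.isSU_mx ι h k hι g g' hg
    · intro τ
      have h3 : conj (τ m) = (cj τ) m := rfl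
      rw [h3, hcm, map_mul]
      have := hne g' τ
      field_simp
      ring
    · intro τ
      have h3 : conj (τ l) = (cj τ) l := rfl
      rw [h3, map_mul, hm, hε', hε']
      have := hne g' (cj τ)
      field_simp
      ring
  have h1 := congrFun (hu _ hsu) t
  rw [der_apply, Pi.zero_apply] at h1
  have h2 : ∀ a : T, ∑ g'' : G (t a).1.1,
      (t a).2 (UNJ.UCx.mx k g g' (ι k g') (ι k g) l m (t a).1.1 (t a).1.2 g'') *
      u (Function.update t a ⟨⟨(t a).1.1, g''⟩, (t a).2⟩) =
      (∑ τ : K k →+* ℂ, τ l * if t a = ⟨⟨k, g⟩, τ⟩ then u (Function.update t a ⟨⟨k, g'⟩, τ⟩) else 0) +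
      ∑ τ : K k →+* ℂ, τ m *
        if t a = ⟨⟨k, ι k g'⟩, τ⟩ then u (Function.update t a ⟨⟨k, ι k g⟩, τ⟩) else 0 := by
    intro a
    rcases hta : t a with ⟨⟨k1, g1⟩, τ1⟩
    simp only
    by_cases hk : k1 = k
    · subst hk
      have key : ∀ (b b' : G k1) (x : K k1),
          ∑ g'' : G k1, τ1 (if b = g1 ∧ b' = g'' then x else 0) *
            u (Function.update t a ⟨⟨k1, g''⟩, τ1⟩) =
          ∑ τ : K k1 →+* ℂ, τ x * if (⟨⟨k1, g1⟩, τ1⟩ : LU K G) = ⟨⟨k1, b⟩, τ⟩ then
            u (Function.update t a ⟨⟨k1, b'⟩, τ⟩) else 0 := by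
        intro b b' x
        by_cases hg1 : b = g1
        · subst hg1
          rw [Finset.sum_eq_single b', Finset.sum_eq_single τ1]
          · simp
          · intro τ2 _ h2
            rw [if_neg, mul_zero]
            intro h3
            exact h2 (eq_of_heq (Sigma.mk.inj h3).2).symm
          · intro h2
            exact absurd (Finset.mem_univ _) h2
          · intro g2 _ h2
            rw [if_neg (fun h3 => h2 h3.2.symm), map_zero, zero_mul]
          · intro h2
            exact absurd (Finset.mem_univ _) h2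
        · rw [Finset.sum_eq_zero, Finset.sum_eq_zero]
          · intro τ2 _
            rw [if_neg, mul_zero]
            intro h3
            exact hg1 (eq_of_heq (Sigma.mk.inj (Sigma.mk.inj h3).1).2).symm
          · intro g2 _
            rw [if_neg (fun h3 => hg1 h3.1), map_zero, zero_mul]
      rw [UNJ.UCx.mx_self]
      simp only [Matrix.add_apply, Matrix.single_apply, map_add, add_mul, Finset.sum_add_distrib]
      rw [key, key]
    · rw [UNJ.UCx.mx_ne _ _ _ _ _ _ _ hk, Finset.sum_eq_zero, Finset.sum_eq_zero, Finset.sum_eq_zero,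
        add_zero]
      · intro τ2 _
        rw [if_neg, mul_zero]
        intro h3
        exact hk (congrArg (fun y : LU K G => y.1.1) h3)
      · intro τ2 _
        rw [if_neg, mul_zero]
        intro h3
        exact hk (congrArg (fun y : LU K G => y.1.1) h3)
      · intro g2 _
        rw [Matrix.zero_apply, map_zero, zero_mul]
  rw [Finset.sum_congr rfl fun a _ => h2 a, Finset.sum_add_distrib, Finset.sum_comm,
    Finset.sum_comm (s := Finset.univ (α := T))] at h1
  rw [← h1]
  have hinv : Function.Involutive (cj : (K k →+* ℂ) → (K k →+* ℂ)) := hcc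
  have hcs := Equiv.sum_comp (hinv.toPerm _) (fun τ : K k →+* ℂ => ∑ a, τ m *
    if t a = ⟨⟨k, ι k g'⟩, τ⟩ then u (Function.update t a ⟨⟨k, ι k g⟩, τ⟩) else 0)
  rw [← hcs, ← Finset.sum_add_distrib]
  refine Finset.sum_congr rfl fun τ _ => ?_
  rw [Function.Involutive.coe_toPerm, hcm, ← Finset.mul_sum, ← Finset.mul_sum]
  unfold root
  ring_nf

end

end Pool.Agent.UNJ
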