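import Pool.Agent.Lib.UNJ.Rows
import Pool.Agent.Lib.UNIT.UF

/-!
# UNJ, row UF: balanced products of determinants (helper25)
-/

set_option autoImplicit false

open Complex Pool.Agent.HCM Pool.Agent.RAT Pool.Agent.UNIT

namespace Pool.Agent.UNJ

theorem uf_of (hodge : HODGEQ) : UF := by
  intro κ _ K G _ _ _ _ Φ E _ _ _ j τ₀ r c blk f τ hcm hΦ hB
  exact uf_core hodge Φ j τ₀ blk f τ hcm hΦ hB

end Pool.Agent.UNJ
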