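import Pool.Agent.Lib.UNJ.Rows
import Pool.Agent.Lib.HCM.GDual

/-!
# UNJ, row UG: the pairings are combinations of rational ones (helper77)
-/

set_option autoImplicit false

open scoped TensorProduct ComplexConjugate
open Complex Pool.Agent.HCM Pool.Agent.RAT Pool.Agent.UNIT

namespace Pool.Agent.UNJ

noncomputable section

theorem mk_eq {κ : Type} {K G : κ → Type} [∀ k, Field (K k)] {k : κ} {g g' : G k}
    {ρ τ : K k →+* ℂ} : ((⟨⟨k, g⟩, ρ⟩ : LU K G) = ⟨⟨k, g'⟩, τ⟩) ↔ g = g' ∧ ρ = τ := by
  constructor
  · intro h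
    have h1 := congrArg Sigma.fst h
    have h2 : g = g' := by
      have h3 := (Sigma.mk.inj h1).2
      exact eq_of_heq h3
    subst h2
    exact ⟨rfl, eq_of_heq (Sigma.mk.inj h).2⟩
  · rintro ⟨rfl, rfl⟩
    rfl

theorem uG : UG := by
  intro κ _ _ K G _ _ _ ι h k τ
  classical
  obtain ⟨d, e, e', he⟩ := exists_dual (K k)
  have key : (pc ι h k τ : LU K G → LU K G → ℂ) =
      ∑ i, (τ (e' i)) • pair ι h (Pi.single k (e i)) := by
    funext y y'
    rw [Finset.sum_apply, Finset.sum_apply]
    obtain ⟨⟨k1, g⟩, ρ⟩ := y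
    simp only [Pi.smul_apply, smul_eq_mul]
    unfold pc pair
    by_cases hk : k1 = k
    · subst hk
      have h1 : ∀ i : Fin d, (Pi.single k1 (e i) : ∀ k, K k) k1 = e i := fun i => by simp
      simp only [h1]
      by_cases hy : y' = ⟨⟨k1, ι k1 g⟩, cj ρ⟩
      · simp only [if_pos hy, map_div₀]
        have h2 : ∑ i, τ (e' i) * (ρ (e i) / ρ (h k1 g)) =
            (if ρ = τ then 1 else 0) / ρ (h k1 g) := by
          rw [← he ρ τ, Finset.sum_div]
          exact Finset.sum_congr rfl fun i _ => by ring
        rw [h2]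
        by_cases hr : ρ = τ
        · subst hr
          rw [if_pos rfl, Finset.sum_eq_single g]
          · rw [if_pos ⟨rfl, hy⟩, one_div]
          · intro g' _ hg
            rw [if_neg]
            rintro ⟨h3, -⟩
            exact hg (mk_eq.1 h3).1.symm
          · intro h3
            exact absurd (Finset.mem_univ _) h3
        · rw [if_neg hr, zero_div]
          refine Finset.sum_eq_zero fun g' _ => ?_
          rw [if_neg]
          rintro ⟨h3, -⟩
          exact hr (mk_eq.1 h3).2
      · simp only [if_neg hy, mul_zero, Finset.sum_const_zero]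
        refine Finset.sum_eq_zero fun g' _ => ?_
        rw [if_neg]
        rintro ⟨h3, h4⟩
        apply hy
        obtain ⟨rfl, rfl⟩ := mk_eq.1 h3
        exact h4
    · have h1 : ∀ i : Fin d, (Pi.single k (e i) : ∀ k, K k) k1 = 0 := fun i =>
        Pi.single_eq_of_ne hk _
      simp only [h1, zero_div, map_zero, ite_self, mul_zero, Finset.sum_const_zero]
      refine Finset.sum_eq_zero fun g' _ => ?_
      rw [if_neg]
      rintro ⟨h3, -⟩
      exact hk (congrArg (fun y : LU K G => y.1.1) h3)
  rw [key]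
  exact Submodule.sum_mem _ fun i _ => Submodule.smul_mem _ _ (Submodule.subset_span ⟨_, rfl⟩)

end

end Pool.Agent.UNJ
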