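import Pool.Agent.Lib.UNJ.Rows
import Pool.Agent.Lib.UNIT.UH

/-!
# UNJ, row UH: balanced products of pairings and determinants are combinations of the products in
`IsProdU` (helper77)
-/

set_option autoImplicit false

open scoped TensorProduct ComplexConjugate
open Complex Pool.Agent.HCM Pool.Agent.RAT Pool.Agent.UNIT

namespace Pool.Agent.UNJ

noncomputable section

theorem uH (hF : UF) (hG : UG) : UH := by
  intro κ _ K G _ _ _ _ ι h hb Φ hΦ E _ _ _ j τ₀ n d r c pk pτ blk τ e hblk hdc hB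
  classical
  have hcm : ∀ j, NumberField.IsCMField (K (blk j)) := fun j => (hb (blk j)).cm (hblk j)
  have hct : ∀ j g, IsCMType (Φ ⟨blk j, g⟩) := by
    intro j g τ
    have h1 := hΦ (blk j) g τ
    rwa [hblk j g] at h1
  have hcard : Fintype.card (Two c) = Fintype.card (Σ j, G (blk j)) := by
    have h1 := Fintype.card_congr e
    rw [Fintype.card_sum, Fintype.card_prod, Fintype.card_fin, Fintype.card_fin,
      Fintype.card_fin] at h1
    have h2 : Fintype.card (Two c) = c + c := by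
      simp [Two]
    omega
  let f : Two c ≃ Σ j, G (blk j) := Fintype.equivOfCardEq hcard
  have hD := hF κ K G Φ E j τ₀ r c blk f τ hcm hct hB
  -- the evaluation of the `i`-th pairing
  let P : ∀ _ : Fin d, (LU K G → LU K G → ℂ) →ₗ[ℂ] ((Fin (2 * n) → LU K G) → ℂ) := fun i =>
    { toFun := fun w t => w (t (e (Sum.inl (i, 0)))) (t (e (Sum.inl (i, 1))))
      map_add' := fun _ _ => rfl
      map_smul' := fun _ _ => rfl }
  let Q : (((Σ j, G (blk j)) → LU K G) → ℂ) →ₗ[ℂ] ((Fin (2 * n) → LU K G) → ℂ) :=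
    LinearMap.funLeft ℂ ℂ fun t i => t (e (Sum.inr i))
  let D : ((Σ j, G (blk j)) → LU K G) → ℂ := fun t => ∏ j, dc (blk j) (τ j) fun g => t ⟨j, g⟩
  let F : MultilinearMap ℂ (fun _ : Fin d => LU K G → LU K G → ℂ) ((Fin (2 * n) → LU K G) → ℂ) :=
    (LinearMap.mulRight ℂ (Q D)).compMultilinearMap
      ((MultilinearMap.mkPiAlgebra ℂ (Fin d) ((Fin (2 * n) → LU K G) → ℂ)).compLinearMap P)
  have hFa : ∀ w t, F w t =
      (∏ i, w i (t (e (Sum.inl (i, 0)))) (t (e (Sum.inl (i, 1))))) *
        D fun i => t (e (Sum.inr i)) := by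
    intro w t
    change ((∏ i, P i (w i)) * Q D) t = _
    rw [Pi.mul_apply, Finset.prod_apply]
    rfl
  have hbt : bt ι h pk pτ blk τ e = F fun i => pc ι h (pk i) (pτ i) := by
    funext t
    rw [hFa]
    rfl
  rw [hbt]
  apply expand_mem (Set.range fun l : ∀ k, K k => pair ι h l)
  · intro s hs
    choose l hl using hs
    have h1 : s = fun i => pair ι h (l i) := funext fun i => (hl i).symm
    -- the linear map `D ↦ F s`
    let W : (((Σ j, G (blk j)) → LU K G) → ℂ) →ₗ[ℂ] ((Fin (2 * n) → LU K G) → ℂ) :=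
      LinearMap.mulLeft ℂ (∏ i, P i (s i)) ∘ₗ Q
    have h2 : F s = W D := rfl
    rw [h2]
    have h3 : W D ∈ Submodule.map W
        (Submodule.span ℂ {w | ∃ v : (Two c → LC K G blk) → ℂ, VOk Φ blk v ∧ w = detT blk f v}) :=
      Submodule.mem_map_of_mem hD
    rw [Submodule.map_span] at h3
    refine Submodule.span_mono ?_ h3
    rintro w ⟨_, ⟨v, hv, rfl⟩, rfl⟩
    refine ⟨d, r, c, blk, f, e, l, v, hblk, hv, fun t => ?_⟩
    change ((∏ i, P i (s i)) * Q (detT blk f v)) t = _
    rw [Pi.mul_apply, Finset.prod_apply, h1]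
    rfl
  · intro i
    exact hG κ K G ι h (pk i) (pτ i)

end

end Pool.Agent.UNJ
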