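import Pool.Agent.Lib.UNJ.Rows
import Pool.Agent.Lib.UNJ.Basic
import Pool.Agent.Lib.UNIT.UI

/-!
# UNJ, row UI: weights of a product of pairings and determinants (helper26)
-/

set_option autoImplicit false

open scoped TensorProduct ComplexConjugate
open Complex Pool.Agent.HCM Pool.Agent.RAT Pool.Agent.UNIT

namespace Pool.Agent.UNJ

namespace UIx

open Pool.Agent.UNIT.UIx

noncomputable section

section lift

variable {L E : Type} [Field L] [Field E]

/-- Complex conjugation commutes with the Galois action. -/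
theorem conj_lift' (c : L →+* L) (hc : ∀ σ : L →+* ℂ, cj σ = σ.comp c) (τ₀ : E →+* ℂ)
    (s s' : L →+* E) (h : τ₀.comp s' = cj (τ₀.comp s)) (g : E →+* E) :
    τ₀.comp (g.comp s') = cj (τ₀.comp (g.comp s)) := by
  have h1 : s' = s.comp c := by
    apply lift_unique τ₀
    rw [h, hc]
    rfl
  rw [h1, hc]
  rfl

end lift

section weight

variable {κ : Type} {K G : κ → Type} [∀ k, Field (K k)]
  {E : Type} [Field E] [NumberField E] [IsGalois ℚ E]

/-- The weights of the two letters of a pairing. -/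
theorem wv_cj' [∀ k, NumberField (K k)] [∀ k, Fintype (G k)] (ι : ∀ k, G k → G k)
    (h : ∀ k, G k → K k) (hb : ∀ k, IsBlock (ι k) (h k))
    (Φ : ∀ i : Σ k, G k, Set (K i.1 →+* ℂ)) (hΦ : ∀ k g τ, cj τ ∈ Φ ⟨k, ι k g⟩ ↔ τ ∉ Φ ⟨k, g⟩)
    (j : ∀ k, K k →+* E) (τ₀ : E →+* ℂ) (g : E ≃ₐ[ℚ] E) (k : κ) (σ : K k →+* ℂ) :
    wv Φ j τ₀ g k σ + wv Φ j τ₀ g k (cj σ) = Fintype.card (G k) := by
  classical
  obtain ⟨c, -, hc⟩ := (hb k).exists_conj
  have h1 : τ₀.comp (lf j τ₀ k (cj σ)) = cj (τ₀.comp (lf j τ₀ k σ)) := by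
    rw [← lf_spec, ← lf_spec]
  have h2 := conj_lift' c hc τ₀ (lf j τ₀ k σ) (lf j τ₀ k (cj σ)) h1 (g : E →+* E)
  unfold wv
  rw [h2]
  have hi : Function.Injective (ι k) := fun a b hab => by
    rw [← (hb k).inv a, ← (hb k).inv b, hab]
  have h3 : {g' : G k | cj (τ₀.comp ((g : E →+* E).comp (lf j τ₀ k σ))) ∈ Φ ⟨k, g'⟩} =
      ι k '' {g' : G k | τ₀.comp ((g : E →+* E).comp (lf j τ₀ k σ)) ∈ Φ ⟨k, g'⟩}ᶜ := by
    ext g'
    constructor
    · intro hg
      refine ⟨ι k g', ?_, (hb k).inv g'⟩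
      have h4 := hΦ k (ι k g') (τ₀.comp ((g : E →+* E).comp (lf j τ₀ k σ)))
      rw [(hb k).inv g'] at h4
      exact h4.1 hg
    · rintro ⟨g'', hg, rfl⟩
      exact (hΦ k g'' _).2 hg
  rw [h3, Set.ncard_image_of_injective _ hi, Set.ncard_add_ncard_compl, Nat.card_eq_fintype_card]

/-- The two letters of a pairing. -/
theorem pc_ne' [∀ k, Fintype (G k)] {ι : ∀ k, G k → G k} {h : ∀ k, G k → K k} {k : κ}
    {τ : K k →+* ℂ} {y y' : LU K G} (hne : pc ι h k τ y y' ≠ 0) :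
    ∃ g : G k, y = ⟨⟨k, g⟩, τ⟩ ∧ y' = ⟨⟨k, ι k g⟩, cj τ⟩ := by
  classical
  by_contra hcon
  push Not at hcon
  apply hne
  unfold pc
  refine Finset.sum_eq_zero fun g _ => ?_
  rw [if_neg]
  rintro ⟨h1, h2⟩
  exact hcon g h1 h2

end weight

end

end UIx

open UIx Pool.Agent.UNIT.UIx in
/-- **Row UI.** -/
theorem ui : UI := by
  classical
  intro κ _ K G _ _ _ _ ι h hb Φ hΦ N e hN he E _ _ _ j τ₀ n d r pk pτ blk τ f t hne
  rw [bal_iff Φ e j τ₀, balD_iff Φ j τ₀]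
  unfold bt at hne
  have hp := left_ne_zero_of_mul hne
  have hd := right_ne_zero_of_mul hne
  rw [Finset.prod_ne_zero_iff] at hp hd
  have hp' : ∀ i, ∃ g : G (pk i), t (f (Sum.inl (i, 0))) = ⟨⟨pk i, g⟩, pτ i⟩ ∧
      t (f (Sum.inl (i, 1))) = ⟨⟨pk i, ι _ g⟩, cj (pτ i)⟩ :=
    fun i => pc_ne' (hp i (Finset.mem_univ _))
  have hd' : ∀ i, ∃ π : Equiv.Perm (G (blk i)), ∀ g, t (f (Sum.inr ⟨i, g⟩)) =
      ⟨⟨blk i, π g⟩, τ i⟩ := fun i => dc_ne (hd i (Finset.mem_univ _))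
  have hdn : d ≤ n := by
    have h1 := Fintype.card_congr f
    rw [Fintype.card_sum, Fintype.card_prod, Fintype.card_fin, Fintype.card_fin,
      Fintype.card_fin] at h1
    omega
  have key : ∀ g : E ≃ₐ[ℚ] E, ∑ a, e (t a).1.1 * wv Φ j τ₀ g (t a).1.1 (t a).2 =
      d * N + (∑ i, wv Φ j τ₀ g (blk i) (τ i)) * N := by
    intro g
    rw [← Equiv.sum_comp f, Fintype.sum_sum_type]
    congr 1
    · rw [Fintype.sum_prod_type]
      calc ∑ i : Fin d, ∑ b : Fin 2, e (t (f (Sum.inl (i, b)))).1.1 *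
            wv Φ j τ₀ g (t (f (Sum.inl (i, b)))).1.1 (t (f (Sum.inl (i, b)))).2
          = ∑ i : Fin d, N := by
            refine Finset.sum_congr rfl fun i _ => ?_
            obtain ⟨g', h1, h2⟩ := hp' i
            rw [Fin.sum_univ_two, h1, h2]
            dsimp only
            rw [← mul_add, wv_cj' ι h hb Φ hΦ, he]
        _ = d * N := by simp
    · rw [Fintype.sum_sigma, Finset.sum_mul]
      refine Finset.sum_congr rfl fun i _ => ?_
      obtain ⟨π, h1⟩ := hd' i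
      calc ∑ y : G (blk i), e (t (f (Sum.inr ⟨i, y⟩))).1.1 *
            wv Φ j τ₀ g (t (f (Sum.inr ⟨i, y⟩))).1.1 (t (f (Sum.inr ⟨i, y⟩))).2
          = ∑ y : G (blk i), e (blk i) * wv Φ j τ₀ g (blk i) (τ i) := by
            refine Finset.sum_congr rfl fun y _ => ?_
            rw [h1 y]
        _ = wv Φ j τ₀ g (blk i) (τ i) * N := by
            rw [Finset.sum_const, Finset.card_univ, smul_eq_mul, ← he (blk i)]
            ring
  refine forall_congr' fun g => ?_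
  rw [key g]
  constructor
  · intro h1
    have h2 : (d + ∑ i, wv Φ j τ₀ g (blk i) (τ i)) * N = n * N := by rw [add_mul]; exact h1
    have h3 := Nat.eq_of_mul_eq_mul_right hN h2
    omega
  · intro h1
    rw [h1, ← add_mul]
    congr 1
    omega

end Pool.Agent.UNJ
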