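import Pool.Agent.Lib.UNJ.Rows
import Pool.Agent.Lib.UNJ.Basic
import Pool.Agent.Lib.UNIT.UJ

/-!
# UNJ, row UJ: the products are rational (helper39)
-/

set_option autoImplicit false

open scoped TensorProduct ComplexConjugate
open Complex Pool.Agent.HCM Pool.Agent.RAT Pool.Agent.UNIT

namespace Pool.Agent.UNJ

noncomputable section

namespace UJx

open Pool.Agent.UNIT.UJx

/-- The conjugation of a block. -/
theorem exists_conj {F G : Type} [Field F] [NumberField F] {ι : G → G} {h : G → F}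
    (hb : IsBlock ι h) : ∃ c : F →+* F, ∀ (σ : F →+* ℂ) (x : F), σ (c x) = (cj σ) x := by
  obtain ⟨c, -, hc⟩ := hb.exists_conj
  exact ⟨c, fun σ x => by rw [hc σ]; rfl⟩

variable {κ : Type} {K G : κ → Type} [∀ k, Field (K k)] [∀ k, NumberField (K k)]

open Classical in
theorem pair_mem [Fintype κ] [∀ k, Fintype (G k)] (ι : ∀ k, G k → G k) (h : ∀ k, G k → K k)
    (hb : ∀ k, IsBlock (ι k) (h k)) (l : ∀ k, K k) :
    (fun t : Fin 2 → LU K G => pair ι h l (t 0) (t 1)) ∈ TQ K G (Fin 2) := by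
  choose d e e' he using fun k => exists_dual (K k)
  choose c hc using fun k => exists_conj (hb k)
  have h1 : (fun t : Fin 2 → LU K G => pair ι h l (t 0) (t 1)) =
      ∑ y : Σ k, G k, ∑ i : Fin (d y.1), tens ![(Pi.single y
        (l y.1 / h y.1 y.2 * e y.1 i) : ∀ i : Σ k, G k, K i.1),
        Pi.single (⟨y.1, ι y.1 y.2⟩ : Σ k, G k) (c y.1 (e' y.1 i))] := by
    funext t
    simp only [Finset.sum_apply]
    generalize hz : t 0 = y0
    generalize hz' : t 1 = y1
    obtain ⟨z, τ⟩ := y0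
    obtain ⟨z', τ'⟩ := y1
    unfold tens pair
    simp only [Fin.prod_univ_two, Matrix.cons_val_zero, Matrix.cons_val_one]
    rw [hz, hz']
    rw [Finset.sum_eq_single z]
    · simp only [Pi.single_eq_same, map_mul]
      by_cases hzz : z' = ⟨z.1, ι z.1 z.2⟩
      · subst hzz
        simp only [Pi.single_eq_same]
        have h2 : ∀ i, τ (l z.1 / h z.1 z.2) * τ (e z.1 i) * τ' (c z.1 (e' z.1 i)) =
            τ (l z.1 / h z.1 z.2) * (τ (e z.1 i) * (cj τ') (e' z.1 i)) := fun i => by
          rw [mul_assoc, hc]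
        rw [Finset.sum_congr rfl fun i _ => h2 i, ← Finset.mul_sum, he]
        have h3 : ((⟨⟨z.1, ι z.1 z.2⟩, τ'⟩ : LU K G) = ⟨⟨z.1, ι z.1 z.2⟩, cj τ⟩) ↔
            τ = cj τ' := by
          constructor
          · intro h4
            have h5 := eq_of_heq (Sigma.mk.inj h4).2
            rw [h5, cj_cj]
          · intro h4
            rw [h4, cj_cj]
        by_cases h4 : τ = cj τ'
        · rw [if_pos (h3.2 h4), if_pos h4, mul_one]
        · rw [if_neg (fun h5 => h4 (h3.1 h5)), if_neg h4, mul_zero]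
      · rw [if_neg]
        · symm
          refine Finset.sum_eq_zero fun i _ => ?_
          rw [Pi.single_eq_of_ne hzz, map_zero, mul_zero]
        · intro h4
          exact hzz (Sigma.mk.inj h4).1
    · intro y _ hy
      refine Finset.sum_eq_zero fun i _ => ?_
      rw [Pi.single_eq_of_ne (Ne.symm hy), map_zero, zero_mul]
    · intro h4
      exact absurd (Finset.mem_univ _) h4
  rw [h1]
  exact Submodule.sum_mem _ fun y _ => Submodule.sum_mem _ fun i _ => tens_mem _

end UJx

theorem uj : UJ := by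
  intro κ _ K G _ _ _ _ ι h hb Φ n u hu
  classical
  obtain ⟨d, r, c, blk, f, e, l, v, -, hv, hu⟩ := hu
  have hvQ : v ∈ HQ (fun i : Σ j, G (blk j) => K (blk i.1)) c := by
    rcases hv with ⟨hc, q, hq⟩ | ⟨-, hv⟩
    · subst hc
      exact UNIT.UJx.const_mem v q hq
    · have h1 : Submodule.span ℚ {w | w ∈ HQ (fun i : Σ j, G (blk j) => K (blk i.1)) c ∧
          ∃ v ∈ BallCl (fun i : Σ j, G (blk j) => Φ ⟨blk i.1, i.2⟩), w = (-2 * I) ^ c • v} ≤
          HQ (fun i : Σ j, G (blk j) => K (blk i.1)) c :=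
        Submodule.span_le.2 fun w hw => hw.1
      exact h1 hv
  have h1 := UNIT.UJx.detT_mem blk f hvQ
  have h2 := UNIT.UJx.prod_mem (K := K) (G := G) (fun _ : Fin d => Fin 2)
    (fun i t => pair ι h (l i) (t 0) (t 1)) (fun i => UJx.pair_mem ι h hb (l i))
  have h3 := UNIT.UJx.reindex (Equiv.sigmaEquivProd (Fin d) (Fin 2)) h2
  have h4 := UNIT.UJx.reindex e (UNIT.UJx.mul_mem h3 h1)
  convert h4 using 1
  funext t
  rw [hu t]
  rfl

end

end Pool.Agent.UNJ
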