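import Pool.Agent.Lib.UNJ.Rows
import Pool.Agent.Lib.UNIT.UL

/-!
# UNJ, row UL: the Lie algebras `𝔰𝔲`, `𝔰𝔭` kill the products (helper28)
-/

set_option autoImplicit false

open scoped TensorProduct ComplexConjugate
open Complex Pool.Agent.HCM Pool.Agent.RAT Pool.Agent.UNIT Pool.Agent.UNIT.ULx

namespace Pool.Agent.UNJ

noncomputable section

/-- The pairings. -/
theorem ULy.pair_der {κ : Type} {K G : κ → Type} [∀ k, Field (K k)] [∀ k, Fintype (G k)]
    {ι : ∀ k, G k → G k} {h : ∀ k, G k → K k} (hh : ∀ k g, ι k (ι k g) = g ∧ h k g ≠ 0)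
    (l : ∀ k, K k) {X : ∀ k, Matrix (G k) (G k) (K k)} (hX : IsSU ι h X) (y0 y1 : LU K G) :
    (∑ g' : G y0.1.1, y0.2 (X y0.1.1 y0.1.2 g') * pair ι h l ⟨⟨y0.1.1, g'⟩, y0.2⟩ y1) +
      ∑ g' : G y1.1.1, y1.2 (X y1.1.1 y1.1.2 g') * pair ι h l y0 ⟨⟨y1.1.1, g'⟩, y1.2⟩ = 0 := by
  classical
  obtain ⟨⟨k, g⟩, τ⟩ := y0
  by_cases hy : ∃ g1 : G k, y1 = ⟨⟨k, g1⟩, cj τ⟩
  · obtain ⟨g1, rfl⟩ := hy
    have e1 : ∑ g' : G k, τ (X k g g') *
        pair ι h l ⟨⟨k, g'⟩, τ⟩ ⟨⟨k, g1⟩, cj τ⟩ =
        τ (X k g (ι k g1)) * τ (l k / h k (ι k g1)) := by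
      rw [Finset.sum_eq_single (ι k g1)]
      · unfold pair
        rw [if_pos]
        show (⟨⟨k, g1⟩, cj τ⟩ : LU K G) = ⟨⟨k, ι k (ι k g1)⟩, cj τ⟩
        rw [(hh k g1).1]
      · intro g' _ hg'
        unfold pair
        rw [if_neg, mul_zero]
        intro h1
        have h2 := congrArg Sigma.fst h1
        have h3 : g1 = ι k g' := eq_of_heq (Sigma.mk.inj h2).2
        exact hg' (by rw [h3, (hh k g').1])
      · intro h1
        exact absurd (Finset.mem_univ _) h1
    have e2 : ∑ g' : G k, cj τ (X k g1 g') *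
        pair ι h l ⟨⟨k, g⟩, τ⟩ ⟨⟨k, g'⟩, cj τ⟩ =
        conj (τ (X k g1 (ι k g))) * τ (l k / h k g) := by
      rw [Finset.sum_eq_single (ι k g)]
      · unfold pair
        rw [if_pos rfl]
        rfl
      · intro g' _ hg'
        unfold pair
        rw [if_neg, mul_zero]
        intro h1
        have h2 := congrArg Sigma.fst h1
        exact hg' (eq_of_heq (Sigma.mk.inj h2).2)
      · intro h1
        exact absurd (Finset.mem_univ _) h1
    refine (congrArg₂ (· + ·) e1 e2).trans ?_
    have h1 := (hX k).2 τ g (ι k g1)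
    rw [(hh k g1).1] at h1
    have n1 : τ (h k g) ≠ 0 := (map_ne_zero τ).mpr (hh k g).2
    have n2 : τ (h k (ι k g1)) ≠ 0 := (map_ne_zero τ).mpr (hh k (ι k g1)).2
    rw [map_div₀, map_div₀]
    rw [map_mul] at h1
    field_simp
    linear_combination τ (l k) * h1
  · push Not at hy
    have e1 : ∑ g' : G k, τ (X k g g') * pair ι h l ⟨⟨k, g'⟩, τ⟩ y1 = 0 := by
      refine Finset.sum_eq_zero fun g' _ => ?_
      unfold pair
      rw [if_neg, mul_zero]
      exact hy (ι k g')
    have e2 : ∑ g' : G y1.1.1, y1.2 (X y1.1.1 y1.1.2 g') *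
        pair ι h l ⟨⟨k, g⟩, τ⟩ ⟨⟨y1.1.1, g'⟩, y1.2⟩ = 0 := by
      refine Finset.sum_eq_zero fun g' _ => ?_
      unfold pair
      rw [if_neg, mul_zero]
      intro h1
      obtain ⟨x', hx'⟩ := form_of h1
      exact hy x' hx'
    refine (congrArg₂ (· + ·) e1 e2).trans ?_
    rw [add_zero]

open ULy in
theorem uL : UL := by
  classical
  intro κ _ K G _ _ _ _ ι h hb Φ n u hu X hX
  have hh : ∀ k g, ι k (ι k g) = g ∧ h k g ≠ 0 := fun k g =>
    ⟨(hb k).inv g, (hb k).ne g⟩
  obtain ⟨d, r, c, blk, f, e, l, v, -, hv, hu⟩ := hu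
  have hv' := fun a a' haa t => ant_VOk hv a a' haa t
  funext t
  rw [der_apply, ← e.sum_comp, Fintype.sum_sum_type, Fintype.sum_prod_type]
  have hR : ∀ b : Σ j, G (blk j), ∀ y : LU K G, u (Function.update t (e (Sum.inr b)) y) =
      (∏ i, pair ι h (l i) (t (e (Sum.inl (i, 0)))) (t (e (Sum.inl (i, 1))))) *
        detT blk f v (Function.update (fun i => t (e (Sum.inr i))) b y) := by
    intro b y
    rw [hu]
    congr 1
    · refine Finset.prod_congr rfl fun i _ => ?_
      rw [Function.update_of_ne, Function.update_of_ne]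
      · exact fun h1 => by simpa using e.injective h1
      · exact fun h1 => by simpa using e.injective h1
    · congr 1
      funext i
      by_cases hi : i = b
      · subst hi
        rw [Function.update_self, Function.update_self]
      · rw [Function.update_of_ne hi, Function.update_of_ne]
        exact fun h1 => hi (by simpa using e.injective h1)
  have hB : ∀ (x : Fin d × Fin 2) (y : LU K G),
      detT blk f v (fun i => Function.update t (e (Sum.inl x)) y (e (Sum.inr i))) =
        detT blk f v (fun i => t (e (Sum.inr i))) := by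
    intro x y
    congr 1
    funext i
    rw [Function.update_of_ne]
    exact fun h1 => by simpa using e.injective h1
  have hE : ∀ (i : Fin d) (a : Fin 2) (y : LU K G), ∀ i' ∈ Finset.univ.erase i,
      pair ι h (l i') (Function.update t (e (Sum.inl (i, a))) y (e (Sum.inl (i', 0))))
        (Function.update t (e (Sum.inl (i, a))) y (e (Sum.inl (i', 1)))) =
      pair ι h (l i') (t (e (Sum.inl (i', 0)))) (t (e (Sum.inl (i', 1)))) := by
    intro i a y i' hi'
    have hne : i' ≠ i := Finset.ne_of_mem_erase hi'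
    rw [Function.update_of_ne, Function.update_of_ne]
    · exact fun h1 => hne (Prod.ext_iff.mp (Sum.inl_injective (e.injective h1))).1
    · exact fun h1 => hne (Prod.ext_iff.mp (Sum.inl_injective (e.injective h1))).1
  have h0 : ∀ (i : Fin d) (y : LU K G), u (Function.update t (e (Sum.inl (i, 0))) y) =
      pair ι h (l i) y (t (e (Sum.inl (i, 1)))) *
        ((∏ i' ∈ Finset.univ.erase i, pair ι h (l i') (t (e (Sum.inl (i', 0))))
          (t (e (Sum.inl (i', 1))))) * detT blk f v (fun i => t (e (Sum.inr i)))) := by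
    intro i y
    rw [hu, hB, ← mul_assoc, ← Finset.mul_prod_erase _ _ (Finset.mem_univ i)]
    congr 2
    · rw [Function.update_self, Function.update_of_ne]
      exact fun h1 => by simpa using e.injective h1
    · exact Finset.prod_congr rfl (hE i 0 y)
  have h1 : ∀ (i : Fin d) (y : LU K G), u (Function.update t (e (Sum.inl (i, 1))) y) =
      pair ι h (l i) (t (e (Sum.inl (i, 0)))) y *
        ((∏ i' ∈ Finset.univ.erase i, pair ι h (l i') (t (e (Sum.inl (i', 0))))
          (t (e (Sum.inl (i', 1))))) * detT blk f v (fun i => t (e (Sum.inr i)))) := by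
    intro i y
    rw [hu, hB, ← mul_assoc, ← Finset.mul_prod_erase _ _ (Finset.mem_univ i)]
    congr 2
    · rw [Function.update_self, Function.update_of_ne]
      exact fun h1 => by simpa using e.injective h1
    · exact Finset.prod_congr rfl (hE i 1 y)
  have hI : ∑ b : Σ j, G (blk j), ∑ g' : G (t (e (Sum.inr b))).1.1,
      (t (e (Sum.inr b))).2 (X (t (e (Sum.inr b))).1.1 (t (e (Sum.inr b))).1.2 g') *
        u (Function.update t (e (Sum.inr b)) ⟨⟨(t (e (Sum.inr b))).1.1, g'⟩,
          (t (e (Sum.inr b))).2⟩) = 0 := by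
    have h2 := detT_der blk f v hv' X (fun k => (hX k).1) (fun i => t (e (Sum.inr i)))
    rw [← mul_zero (∏ i, pair ι h (l i) (t (e (Sum.inl (i, 0)))) (t (e (Sum.inl (i, 1))))), ← h2,
      Finset.mul_sum]
    refine Finset.sum_congr rfl fun b _ => ?_
    rw [Finset.mul_sum]
    refine Finset.sum_congr rfl fun g' _ => ?_
    rw [hR]
    ring
  rw [hI, add_zero]
  refine Finset.sum_eq_zero fun i _ => ?_
  rw [Fin.sum_univ_two]
  simp only [h0, h1]
  simp only [← mul_assoc]
  simp only [← Finset.sum_mul]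
  rw [← add_mul, ← add_mul, pair_der hh (l i) hX, zero_mul, zero_mul]

end

end Pool.Agent.UNJ
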