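import Pool.Agent.Lib.UNJ.Rows
import Pool.Agent.Lib.UNIT.UM

/-!
# UNJ, row UM: the torus acts on the products by the powers of the norm (helper81)
-/

set_option autoImplicit false

open scoped TensorProduct ComplexConjugate
open Complex Pool.Agent.HCM Pool.Agent.RAT Pool.Agent.UNIT

namespace Pool.Agent.UNJ

noncomputable section

namespace UMx

open Classical in
/-- The product of the reflex norm for `S` and of the complex conjugate of the reflex norm for the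
complex conjugate of the complement of `S` is the norm. -/
theorem mul_conj {E : Type} [Field E] [NumberField E] [IsGalois ℚ E] {F : Type} [Field F]
    [NumberField F] (c : F →+* F) (hc : ∀ τ : F →+* ℂ, cj τ = τ.comp c)
    {S S' : Set (F →+* ℂ)} (hS : ∀ τ, cj τ ∈ S' ↔ τ ∉ S) {j : F →+* E} {τ₀ : E →+* ℂ} {x : E}
    {z z' : F}
    (hz : j z = ∏ g : E ≃ₐ[ℚ] E, if τ₀.comp ((g : E →+* E).comp j) ∈ S then g.symm x else 1)
    (hz' : j z' = ∏ g : E ≃ₐ[ℚ] E, if τ₀.comp ((g : E →+* E).comp j) ∈ S' then g.symm x else 1)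
    (τ : F →+* ℂ) : τ z * cj τ z' = ((Algebra.norm ℚ x : ℚ) : ℂ) := by
  obtain ⟨d, hd⟩ := exists_aut τ₀ (cj τ₀)
  have h1 : ∀ y : F, d (j y) = j (c y) := by
    intro y
    apply τ₀.injective
    have h2 : τ₀ (d (j y)) = cj τ₀ (j y) := by rw [hd]; rfl
    have h3 : cj (τ₀.comp j) y = (τ₀.comp j) (c y) := by rw [hc]; rfl
    rw [h2]
    exact h3
  have h2 : ∀ g : E ≃ₐ[ℚ] E,
      (τ₀.comp ((((g * d : E ≃ₐ[ℚ] E)) : E →+* E).comp j) ∈ S' ↔
        τ₀.comp ((g : E →+* E).comp j) ∉ S) := by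
    intro g
    rw [← hS]
    have h3 : τ₀.comp ((((g * d : E ≃ₐ[ℚ] E)) : E →+* E).comp j) =
        cj (τ₀.comp ((g : E →+* E).comp j)) := by
      rw [hc]
      ext y
      change τ₀ (g (d (j y))) = τ₀ (g (j (c y)))
      rw [h1 y]
    rw [h3]
  have h3 : j (z * c z') = ∏ g : E ≃ₐ[ℚ] E, g.symm x := by
    rw [map_mul, ← h1, hz, hz', map_prod]
    have h4 : ∏ g : E ≃ₐ[ℚ] E, d (if τ₀.comp ((g : E →+* E).comp j) ∈ S' then g.symm x
        else 1) = ∏ g : E ≃ₐ[ℚ] E, if τ₀.comp ((g : E →+* E).comp j) ∈ S then 1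
        else g.symm x := by
      symm
      refine Fintype.prod_equiv (Equiv.mulRight d) _ _ ?_
      intro g
      change (if τ₀.comp ((g : E →+* E).comp j) ∈ S then 1 else g.symm x) =
        d (if τ₀.comp ((((g * d : E ≃ₐ[ℚ] E)) : E →+* E).comp j) ∈ S' then
          (g * d : E ≃ₐ[ℚ] E).symm x else 1)
      by_cases h5 : τ₀.comp ((g : E →+* E).comp j) ∈ S
      · rw [if_pos h5, if_neg (by rw [h2 g]; exact not_not.2 h5), map_one]
      · rw [if_neg h5, if_pos ((h2 g).2 h5)]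
        have h6 : (g * d : E ≃ₐ[ℚ] E).symm x = d.symm (g.symm x) := rfl
        rw [h6, AlgEquiv.apply_symm_apply]
    rw [h4, ← Finset.prod_mul_distrib]
    refine Finset.prod_congr rfl fun g _ => ?_
    split_ifs
    · rw [mul_one]
    · rw [one_mul]
  have h4 : ∏ g : E ≃ₐ[ℚ] E, g.symm x = algebraMap ℚ E (Algebra.norm ℚ x) := by
    rw [Algebra.norm_eq_prod_automorphisms ℚ x]
    exact Fintype.prod_equiv (Equiv.inv (E ≃ₐ[ℚ] E)) _ _ fun g => rfl
  have h5 : z * c z' = ((Algebra.norm ℚ x : ℚ) : F) := by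
    apply j.injective
    rw [h3, h4, map_ratCast, eq_ratCast]
  have h6 : cj τ z' = τ (c z') := by rw [hc]; rfl
  rw [h6, ← map_mul, h5, map_ratCast]

section pairs

variable {κ : Type} {K G : κ → Type} [∀ k, Field (K k)] [∀ k, NumberField (K k)]
  [∀ k, Fintype (G k)] {E : Type} [Field E] [NumberField E] [IsGalois ℚ E]

/-- The torus acts on a pairing by a power of the norm. -/
theorem pair_val {ι : ∀ k, G k → G k} {h : ∀ k, G k → K k} (hb : ∀ k, IsBlock (ι k) (h k))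
    {Φ : ∀ i : Σ k, G k, Set (K i.1 →+* ℂ)}
    (hΦ : ∀ k g τ, cj τ ∈ Φ ⟨k, ι k g⟩ ↔ τ ∉ Φ ⟨k, g⟩) {j : ∀ k, K k →+* E} {τ₀ : E →+* ℂ}
    {x : E} {z : ∀ i : Σ k, G k, K i.1} (hz : IsReflexNorm Φ (fun i => j i.1) τ₀ x z)
    {N : ℕ} {e : κ → ℕ} (hN : ∀ k, e k * Fintype.card (G k) = N)
    {l : ∀ k, K k} {y y' : LU K G} (hy : pair ι h l y y' ≠ 0) :
    UNIT.UMx.fac z e y * UNIT.UMx.fac z e y' = ((Algebra.norm ℚ x : ℚ) : ℂ) ^ N := by
  have h1 : y' = ⟨⟨y.1.1, ι y.1.1 y.1.2⟩, cj y.2⟩ := by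
    by_contra h2
    apply hy
    unfold pair
    rw [if_neg h2]
  subst h1
  obtain ⟨c, -, hc⟩ := (hb y.1.1).exists_conj
  let s : Equiv.Perm (G y.1.1) :=
    ⟨ι y.1.1, ι y.1.1, (hb y.1.1).inv, (hb y.1.1).inv⟩
  unfold UNIT.UMx.fac
  dsimp only
  have h2 : ∀ g : G y.1.1, y.2 (z ⟨y.1.1, g⟩) * cj y.2 (z ⟨y.1.1, s g⟩) =
      ((Algebra.norm ℚ x : ℚ) : ℂ) := fun g =>
    mul_conj c hc (hΦ y.1.1 g) (hz ⟨y.1.1, g⟩) (hz ⟨y.1.1, ι y.1.1 g⟩) y.2
  have h3 : cj y.2 (∏ g, z ⟨y.1.1, g⟩) = ∏ g, cj y.2 (z ⟨y.1.1, s g⟩) := by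
    rw [map_prod]
    exact (Equiv.prod_comp s fun g => cj y.2 (z ⟨y.1.1, g⟩)).symm
  rw [map_pow, map_pow, ← mul_pow, h3, map_prod, ← Finset.prod_mul_distrib,
    Finset.prod_congr rfl fun g _ => h2 g, Finset.prod_const, Finset.card_univ, ← pow_mul,
    mul_comm, hN]

end pairs

end UMx

/-- **Row UM.** -/
theorem um : UM := by
  intro κ _ K G _ _ _ _ ι h hb Φ hΦ N e _ hN E _ _ _ j τ₀ n u hu x z hz
  obtain ⟨d, r, c, blk, f, e', l, v, -, hv, hu⟩ := hu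
  funext t
  rw [Pi.smul_apply, Rat.smul_def]
  have hs : scl (fun k => (∏ g, z ⟨k, g⟩) ^ e k) u t =
      (∏ a, UNIT.UMx.fac z e (t a)) * u t := scl_apply _ u t
  rw [hs]
  by_cases h0 : u t = 0
  · rw [h0, mul_zero, mul_zero]
  congr 1
  rw [hu t] at h0
  have hp := left_ne_zero_of_mul h0
  have hd := right_ne_zero_of_mul h0
  rw [← Equiv.prod_comp e', Fintype.prod_sum_type, UNIT.UMx.detT_val hz hN hv hd,
    Fintype.prod_prod_type]
  have h1 : ∀ i : Fin d, ∏ k : Fin 2, UNIT.UMx.fac z e (t (e' (Sum.inl (i, k)))) =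
      ((Algebra.norm ℚ x : ℚ) : ℂ) ^ N := by
    intro i
    rw [Fin.prod_univ_two]
    exact UMx.pair_val hb hΦ hz hN (Finset.prod_ne_zero_iff.1 hp i (Finset.mem_univ _))
  rw [Finset.prod_congr rfl fun i _ => h1 i, Finset.prod_const, Finset.card_univ,
    Fintype.card_fin, ← pow_mul, ← pow_add, Rat.cast_pow]
  congr 1
  have h2 := Fintype.card_congr e'
  have h3 := Fintype.card_congr f
  have h4 : Fintype.card (Two c) = c + c := by
    change Fintype.card (Fin c ⊕ Fin c) = c + c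
    simp
  rw [Fintype.card_sum, Fintype.card_prod, Fintype.card_fin, Fintype.card_fin, Fintype.card_fin,
    ← h3, h4] at h2
  have h5 : n = d + c := by omega
  rw [h5]
  ring

end

end Pool.Agent.UNJ
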