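import Pool.Agent.Lib.UNJ.Rows
import Pool.Agent.Lib.UNIT.Coord

/-!
# UNJ, row UP: from the rational form to `ℚ_p` (helper79, with `Coord` of helper16)
-/

set_option autoImplicit false

open scoped TensorProduct ComplexConjugate
open Complex Pool.Agent.HCM Pool.Agent.RAT Pool.Agent.UNIT

namespace Pool.Agent.UNJ

noncomputable section

/-- Row UP. -/
theorem up : UP := by
  intro hUN hUL hUM p _ n κ _ K G _ _ _ _ ι h hh Φ hΦ N e hN he E _ _ _ j τ₀ c hc
  constructor
  · rintro ⟨h1, m, hm⟩
    rw [crd_sum p c]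
    refine Submodule.sum_mem _ fun k _ => Submodule.smul_mem _ _
      (one_tmul_mem p (P := {u | IsProdU Φ ι h n u}) ?_)
    refine hUN n κ K G ι h hh Φ hΦ N e hN he E j τ₀ (p ^ m)
      (pow_pos (Nat.Prime.pos Fact.out) m) (crd p c k) (crd_mem p _ hc k) ?_ ?_
    · intro X hX
      rw [← crd_baseChange, h1 X hX, crd_zero]
    · intro y hy z hz
      have hz' : IsReflexNorm Φ (fun i => j i.1) τ₀ (1 + (p : E) ^ m * y) z := by
        push_cast at hz
        exact hz
      have h2 := hm y hy z hz'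
      rw [← crd_baseChange, h2, crd_smul]
      push_cast
      rfl
  · intro hc'
    clear hc
    suffices hs : (∀ X : ∀ k, Matrix (G k) (G k) (K k), IsSU ι h X →
        (der X).baseChange ℚ_[p] c = 0) ∧
        ∀ (x : E) (z : ∀ i : Σ k, G k, K i.1), IsReflexNorm Φ (fun i => j i.1) τ₀ x z →
          (scl fun k => (∏ g, z ⟨k, g⟩) ^ e k).baseChange ℚ_[p] c =
            ((Algebra.norm ℚ x ^ (n * N) : ℚ) : ℚ_[p]) • c from
      ⟨hs.1, 0, fun y _ z hz => hs.2 _ z hz⟩
    induction hc' using Submodule.span_induction with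
    | mem c hc =>
      obtain ⟨u, hu, rfl⟩ := hc
      constructor
      · intro X hX
        rw [LinearMap.baseChange_tmul, hUL κ K G ι h hh Φ n u hu X hX, TensorProduct.tmul_zero]
      · intro x z hz
        rw [LinearMap.baseChange_tmul, hUM κ K G ι h hh Φ hΦ N e hN he E j τ₀ n u hu x z hz,
          one_tmul_smul]
    | zero => exact ⟨fun X _ => map_zero _, fun x z _ => by rw [map_zero, smul_zero]⟩
    | add c d _ _ hc hd =>
      refine ⟨fun X hX => ?_, fun x z hz => ?_⟩
      · rw [map_add, hc.1 X hX, hd.1 X hX, add_zero]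
      · rw [map_add, hc.2 x z hz, hd.2 x z hz, smul_add]
    | smul l c _ hc =>
      refine ⟨fun X hX => ?_, fun x z hz => ?_⟩
      · rw [map_smul, hc.1 X hX, smul_zero]
      · rw [map_smul, hc.2 x z hz, smul_comm]

end

end Pool.Agent.UNJ
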