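import Pool.Agent.Lib.UNIT.UBb

/-!
# Gluing of blocks

Functions of words which are killed by one letter operators of blocks.
-/

set_option autoImplicit false
set_option linter.unusedSectionVars false

open Function

namespace Pool.Agent.UNJ.Gl

noncomputable section

/-- From words in few letters to words in all letters. -/
theorem push {Λ' Λ P : Type} (j : Λ' → Λ) (S' : Set ((P → Λ') → ℂ)) (S : Set ((P → Λ) → ℂ))
    (hS : ∀ w ∈ S', ∃ W ∈ S, (∀ s : P → Λ', W (fun a => j (s a)) = w s) ∧
      ∀ t, W t ≠ 0 → ∃ s : P → Λ', t = fun a => j (s a))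
    (φ : (P → Λ) → ℂ) (hφ : ∀ t, φ t ≠ 0 → ∃ s : P → Λ', t = fun a => j (s a))
    (h : (fun s : P → Λ' => φ (fun a => j (s a))) ∈ Submodule.span ℂ S') :
    φ ∈ Submodule.span ℂ S := by
  have key : ∀ w ∈ Submodule.span ℂ S', ∃ W ∈ Submodule.span ℂ S,
      (∀ s : P → Λ', W (fun a => j (s a)) = w s) ∧
      ∀ t, W t ≠ 0 → ∃ s : P → Λ', t = fun a => j (s a) := by
    intro w hw
    induction hw using Submodule.span_induction with
    | mem w hw =>
      obtain ⟨W, h1, h2, h3⟩ := hS w hw
      exact ⟨W, Submodule.subset_span h1, h2, h3⟩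
    | zero => exact ⟨0, Submodule.zero_mem _, fun _ => rfl, fun t ht => absurd rfl ht⟩
    | add w w' _ _ ih ih' =>
      obtain ⟨W, h1, h2, h3⟩ := ih
      obtain ⟨W', h1', h2', h3'⟩ := ih'
      refine ⟨W + W', Submodule.add_mem _ h1 h1', fun s => ?_, fun t ht => ?_⟩
      · rw [Pi.add_apply, h2, h2', Pi.add_apply]
      · by_cases h4 : W t = 0
        · refine h3' t fun h5 => ht ?_
          rw [Pi.add_apply, h4, h5, add_zero]
        · exact h3 t h4
    | smul z w _ ih =>
      obtain ⟨W, h1, h2, h3⟩ := ih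
      refine ⟨z • W, Submodule.smul_mem _ _ h1, fun s => ?_, fun t ht => ?_⟩
      · rw [Pi.smul_apply, h2, Pi.smul_apply]
      · refine h3 t fun h5 => ht ?_
        rw [Pi.smul_apply, h5, smul_zero]
  obtain ⟨W, h1, h2, h3⟩ := key _ h
  have h4 : φ = W := by
    funext t
    by_cases ht : ∃ s : P → Λ', t = fun a => j (s a)
    · obtain ⟨s, rfl⟩ := ht
      exact (h2 s).symm
    · have h5 : φ t = 0 := by
        by_contra h6
        exact ht (hφ t h6)
      have h6 : W t = 0 := by
        by_contra h6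
        exact ht (h3 t h6)
      rw [h5, h6]
  rw [h4]
  exact h1

variable {Λ Bk : Type} [Fintype Λ] [DecidableEq Λ] [Fintype Bk] [DecidableEq Bk] {T : Type}
  [Fintype T] [DecidableEq T]

/-- The elementary operators. -/
def el (p q : Λ) (u : (T → Λ) → ℂ) (t : T → Λ) : ℂ :=
  ∑ a, if t a = p then u (update t a q) else 0

variable (β : Λ → Bk)

/-- The part of `u` with the given blocks of the letters. -/
def part (c : T → Bk) (u : (T → Λ) → ℂ) (t : T → Λ) : ℂ :=
  if ∀ a, β (t a) = c a then u t else 0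

variable {β}

theorem sum_part (u : (T → Λ) → ℂ) : u = ∑ c, part β c u := by
  funext t
  rw [Finset.sum_apply, Finset.sum_eq_single fun a => β (t a)]
  · exact (if_pos fun _ => rfl).symm
  · intro c _ hc
    exact if_neg fun h => hc (funext fun a => (h a).symm)
  · intro h
    exact absurd (Finset.mem_univ _) h

theorem el_part (c : T → Bk) (u : (T → Λ) → ℂ) {p q : Λ} (h : β q = β p) (t : T → Λ) :
    el p q (part β c u) t = part β c (el p q u) t := by
  unfold el part
  by_cases h1 : ∀ a, β (t a) = c a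
  · rw [if_pos h1]
    refine Finset.sum_congr rfl fun a _ => ?_
    by_cases h2 : t a = p
    · rw [if_pos h2, if_pos h2, if_pos]
      intro a'
      by_cases h3 : a' = a
      · subst h3
        rw [update_self, h, ← h2, h1]
      · rw [update_of_ne h3, h1]
    · rw [if_neg h2, if_neg h2]
  · rw [if_neg h1]
    refine Finset.sum_eq_zero fun a _ => ?_
    by_cases h2 : t a = p
    · rw [if_pos h2, if_neg]
      intro h4
      refine h1 fun a' => ?_
      have h5 := h4 a'
      by_cases h3 : a' = a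
      · subst h3
        rwa [update_self, h, ← h2] at h5
      · rwa [update_of_ne h3] at h5
    · rw [if_neg h2]

/-- The words with given blocks. -/
def wrd (c : T → Bk) (x : ∀ b, {a // c a = b} → Λ) (a : T) : Λ := x (c a) ⟨a, rfl⟩

theorem wrd_apply {c : T → Bk} (x : ∀ b, {a // c a = b} → Λ) {a : T} {b : Bk} (h : c a = b) :
    wrd c x a = x b ⟨a, h⟩ := by
  subst h
  rfl

theorem wrd_update {c : T → Bk} (x : ∀ b, {a // c a = b} → Λ) {b : Bk} (y : {a // c a = b} → Λ)
    (a : {a // c a = b}) (q : Λ) :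
    wrd c (update x b (update y a q)) = update (wrd c (update x b y)) a.1 q := by
  funext a'
  by_cases h : c a' = b
  · rw [wrd_apply _ h, update_self]
    by_cases h1 : a' = a.1
    · subst h1
      rw [update_self, update_self]
    · rw [update_of_ne h1, wrd_apply _ h, update_self,
        update_of_ne (fun h2 => h1 (congrArg Subtype.val h2))]
  · have h1 : a' ≠ a.1 := by
      rintro rfl
      exact h a.2
    rw [update_of_ne h1, wrd_apply _ rfl, wrd_apply _ rfl, update_of_ne h, update_of_ne h]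

theorem el_section {c : T → Bk} (u : (T → Λ) → ℂ) (x : ∀ b, {a // c a = b} → Λ) {b : Bk} {p q : Λ}
    (_hp : β p = b) (hq : β q = b) (y : {a // c a = b} → Λ) :
    el p q (fun y => part β c u (wrd c (update x b y))) y =
      el p q (part β c u) (wrd c (update x b y)) := by
  unfold el
  rw [← Finset.sum_filter_add_sum_filter_not Finset.univ (fun a => c a = b)
    (f := fun a => if wrd c (update x b y) a = p then _ else 0)]
  have h1 : (∑ a ∈ Finset.univ.filter (fun a => ¬ c a = b),
      if wrd c (update x b y) a = p then part β c u (update (wrd c (update x b y)) a q)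
      else 0) = 0 := by
    refine Finset.sum_eq_zero fun a ha => ?_
    split_ifs with h2
    · refine if_neg fun h3 => (Finset.mem_filter.mp ha).2 ?_
      have h4 := h3 a
      rw [update_self, hq] at h4
      exact h4.symm
    · rfl
  rw [h1, add_zero, ← Finset.sum_subtype_eq_sum_filter]
  have h3 : (Finset.univ : Finset T).subtype (fun a => c a = b) = Finset.univ := by
    ext a
    simp
  rw [h3]
  refine Finset.sum_congr rfl fun a _ => ?_
  beta_reduce
  rw [wrd_update]
  have h4 : wrd c (update x b y) a.1 = y a := by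
    rw [wrd_apply _ a.2, update_self]
  rw [h4]

/-- **Gluing of blocks.** -/
theorem glue (S : ∀ (P : Type) [Fintype P] [DecidableEq P], Set ((P → Λ) → ℂ))
    (rel : Λ → Λ → Λ → Λ → ℂ → Prop)
    (hrel : ∀ p q p' q' z, rel p q p' q' z → β q = β p ∧ β p' = β p ∧ β q' = β p)
    (one : ∀ (b : Bk) (P : Type) [Fintype P] [DecidableEq P] (φ : (P → Λ) → ℂ),
      (∀ x, φ x ≠ 0 → ∀ a, β (x a) = b) → (∀ p q p' q' z, rel p q p' q' z → β p = b →
      ∀ x, el p q φ x = z * el p' q' φ x) → φ ∈ Submodule.span ℂ (S P))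
    (u : (T → Λ) → ℂ) (hu : ∀ p q p' q' z, rel p q p' q' z → ∀ t,
      el p q u t = z * el p' q' u t) :
    u ∈ Submodule.span ℂ {w : (T → Λ) → ℂ | ∃ (c : T → Bk)
      (ψ : ∀ b, ({a // c a = b} → Λ) → ℂ), (∀ b, ψ b ∈ S {a // c a = b}) ∧
      w = fun t => ∏ b, ψ b fun a => t a.1} := by
  rw [sum_part (β := β) u]
  refine Submodule.sum_mem _ fun c _ => ?_
  have h1 : ∀ b (x : ∀ b, {a // c a = b} → Λ), (fun y : {a // c a = b} → Λ =>
      part β c u (wrd c (update x b y))) ∈ Submodule.span ℂ (S {a // c a = b}) := by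
    intro b x
    refine one b _ _ ?_ ?_
    · intro y hy a
      have h2 : ∀ a, β (wrd c (update x b y) a) = c a := by
        by_contra h3
        exact hy (if_neg h3)
      have h3 := h2 a.1
      rwa [wrd_apply _ a.2, update_self, a.2] at h3
    · intro p q p' q' z hz hp y
      obtain ⟨h4, h5, h6⟩ := hrel p q p' q' z hz
      rw [el_section u x hp (h4.trans hp), el_section u x (h5.trans hp) (h6.trans hp),
        el_part c u h4, el_part c u (h6.trans h5.symm)]
      unfold part
      rw [hu p q p' q' z hz]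
      split_ifs
      · rfl
      · rw [mul_zero]
  have h2 := UNIT.mem_span_prod (fun b => {a // c a = b} → Λ)
    (fun b => Submodule.span ℂ (S {a // c a = b})) (fun x => part β c u (wrd c x)) h1
  have h3 : (fun x => part β c u (wrd c x)) ∈ Submodule.span ℂ
      {F : (∀ b, {a // c a = b} → Λ) → ℂ | ∃ ψ : ∀ b, ({a // c a = b} → Λ) → ℂ,
        (∀ b, ψ b ∈ S {a // c a = b}) ∧ F = fun x => ∏ b, ψ b (x b)} := by
    refine Submodule.span_le.mpr ?_ h2
    rintro F ⟨φ, hφ, rfl⟩
    exact UNIT.Ub.prod_span (fun b => {a // c a = b} → Λ) (fun b => S {a // c a = b}) φ hφ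
  let R : ((∀ b, {a // c a = b} → Λ) → ℂ) →ₗ[ℂ] ((T → Λ) → ℂ) :=
    LinearMap.funLeft ℂ ℂ fun t b a => t a.1
  have h4 : part β c u = R fun x => part β c u (wrd c x) := rfl
  rw [h4]
  have h5 : Submodule.span ℂ {F : (∀ b, {a // c a = b} → Λ) → ℂ |
      ∃ ψ : ∀ b, ({a // c a = b} → Λ) → ℂ,
        (∀ b, ψ b ∈ S {a // c a = b}) ∧ F = fun x => ∏ b, ψ b (x b)} ≤
      (Submodule.span ℂ {w : (T → Λ) → ℂ | ∃ (c : T → Bk)
      (ψ : ∀ b, ({a // c a = b} → Λ) → ℂ), (∀ b, ψ b ∈ S {a // c a = b}) ∧
      w = fun t => ∏ b, ψ b fun a => t a.1}).comap R := by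
    rw [Submodule.span_le]
    rintro F ⟨ψ, hψ, rfl⟩
    exact Submodule.subset_span ⟨c, ψ, hψ, rfl⟩
  exact h5 h3

end

end Pool.Agent.UNJ.Gl
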