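import Pool.Agent.Lib.UNJ.Basic
import Pool.Agent.Lib.UNIT.Rows

/-!
# UNJ: statements of the rows

Row `X` is `theorem x : X` (small first letter) in the file `Pool/Agent/Lib/UNJ/X.lean`; a row which
uses other rows takes them as hypotheses.  `dc`, `Bal`, `BalD`, `VOk`, `UD`, `UK` are those of `UNIT`.
-/

set_option autoImplicit false

open scoped TensorProduct ComplexConjugate
open Complex Pool.Agent.HCM Pool.Agent.RAT Pool.Agent.UNIT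

namespace Pool.Agent.UNJ

noncomputable section

section defs

variable {κ : Type} {K G : κ → Type} [∀ k, Field (K k)] {T : Type} [Fintype T] [DecidableEq T]

open Classical in
/-- The root vector `E_(g,g')` on the letters `(k, ., τ)`, and minus its adjoint
`E_(ι g',ι g)` on the letters `(k, ., cj τ)`. -/
def root (ι : ∀ k, G k → G k) (h : ∀ k, G k → K k) (k : κ) (g g' : G k) (τ : K k →+* ℂ)
    (u : (T → LU K G) → ℂ) (t : T → LU K G) : ℂ :=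
  (∑ a, if t a = ⟨⟨k, g⟩, τ⟩ then u (Function.update t a ⟨⟨k, g'⟩, τ⟩) else 0) -
    τ (h k g) / τ (h k g') *
      ∑ a, if t a = ⟨⟨k, ι k g'⟩, cj τ⟩ then u (Function.update t a ⟨⟨k, ι k g⟩, cj τ⟩) else 0

/-- All root vectors kill `u`. -/
def Killed (ι : ∀ k, G k → G k) (h : ∀ k, G k → K k) (u : (T → LU K G) → ℂ) : Prop :=
  ∀ (k : κ) (g g' : G k) (τ : K k →+* ℂ), g ≠ g' → ∀ t, root ι h k g g' τ u t = 0

open Classical in
/-- The pairing of the letters `(k, ., τ)` and `(k, ., cj τ)`. -/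
def pc [∀ k, Fintype (G k)] (ι : ∀ k, G k → G k) (h : ∀ k, G k → K k) (k : κ) (τ : K k →+* ℂ)
    (y y' : LU K G) : ℂ :=
  ∑ g : G k, if y = ⟨⟨k, g⟩, τ⟩ ∧ y' = ⟨⟨k, ι k g⟩, cj τ⟩ then (τ (h k g))⁻¹ else 0

/-- Products of pairings and determinants: places `(i, 0), (i, 1)`, `i : Fin d`, for the pairings,
`(j, g)`, `j : Fin r`, `g : G (blk j)`, for the determinants. -/
def bt [∀ k, Fintype (G k)] (ι : ∀ k, G k → G k) (h : ∀ k, G k → K k) {d r : ℕ} (pk : Fin d → κ)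
    (pτ : ∀ i, K (pk i) →+* ℂ) (blk : Fin r → κ) (τ : ∀ j, K (blk j) →+* ℂ)
    (e : (Fin d × Fin 2) ⊕ (Σ j, G (blk j)) ≃ T) (t : T → LU K G) : ℂ :=
  (∏ i, pc ι h (pk i) (pτ i) (t (e (Sum.inl (i, 0)))) (t (e (Sum.inl (i, 1))))) *
    ∏ j, dc (blk j) (τ j) fun g => t (e (Sum.inr ⟨j, g⟩))

/-- `u` is a product of pairings and determinants (these for `ι k` the identity only). -/
def IsBT [∀ k, Fintype (G k)] (ι : ∀ k, G k → G k) (h : ∀ k, G k → K k)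
    (u : (T → LU K G) → ℂ) : Prop :=
  ∃ (d r : ℕ) (pk : Fin d → κ) (pτ : ∀ i, K (pk i) →+* ℂ) (blk : Fin r → κ)
    (τ : ∀ j, K (blk j) →+* ℂ) (e : (Fin d × Fin 2) ⊕ (Σ j, G (blk j)) ≃ T),
    (∀ j g, ι (blk j) g = g) ∧ u = bt ι h pk pτ blk τ e

end defs

/-- UB: all blocks. -/
def UB : Prop :=
  ∀ (κ : Type) [Fintype κ] (K G : κ → Type) [∀ k, Field (K k)] [∀ k, NumberField (K k)]
    [∀ k, Fintype (G k)] [∀ k, Nonempty (G k)] (ι : ∀ k, G k → G k) (h : ∀ k, G k → K k),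
    (∀ k, IsBlock (ι k) (h k)) →
    ∀ (T : Type) [Fintype T] [DecidableEq T] (u : (T → LU K G) → ℂ), Killed ι h u →
    u ∈ Submodule.span ℂ {w : (T → LU K G) → ℂ | IsBT ι h w}

/-- UC: the rational Lie algebras `𝔰𝔲`, `𝔰𝔭` and the root vectors. -/
def UC : Prop :=
  ∀ (κ : Type) [Fintype κ] [DecidableEq κ] (K G : κ → Type) [∀ k, Field (K k)]
    [∀ k, NumberField (K k)] [∀ k, Fintype (G k)] (ι : ∀ k, G k → G k) (h : ∀ k, G k → K k),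
    (∀ k, IsBlock (ι k) (h k)) →
    ∀ (T : Type) [Fintype T] [DecidableEq T] (u : (T → LU K G) → ℂ),
    (∀ X : ∀ k, Matrix (G k) (G k) (K k), IsSU ι h X → der X u = 0) → Killed ι h u

/-- UF: balanced products of determinants are transfers of Hodge classes of CM abelian varieties
(`v t = det [t a = t0 b]`, `t0 b = (f b, τ (f b).1)`, is in the `ℂ`-span of `IsBallQ`, for `c > 0`). -/
def UF : Prop :=
  ∀ (κ : Type) [Fintype κ] (K G : κ → Type) [∀ k, Field (K k)] [∀ k, NumberField (K k)]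
    [∀ k, Fintype (G k)] [∀ k, Nonempty (G k)] (Φ : ∀ i : Σ k, G k, Set (K i.1 →+* ℂ))
    (E : Type) [Field E] [NumberField E] [IsGalois ℚ E] (j : ∀ k, K k →+* E) (τ₀ : E →+* ℂ)
    (r c : ℕ) (blk : Fin r → κ) (f : Two c ≃ Σ j, G (blk j)) (τ : ∀ j, K (blk j) →+* ℂ),
    (∀ j, NumberField.IsCMField (K (blk j))) → (∀ j g, IsCMType (Φ ⟨blk j, g⟩)) →
    BalD Φ τ₀ c blk τ →
    (fun t : (Σ j, G (blk j)) → LU K G => ∏ j, dc (blk j) (τ j) fun g => t ⟨j, g⟩) ∈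
      Submodule.span ℂ {w | ∃ v : (Two c → LC K G blk) → ℂ, VOk Φ blk v ∧ w = detT blk f v}

/-- UG: the pairings are combinations of rational ones. -/
def UG : Prop :=
  ∀ (κ : Type) [Fintype κ] [DecidableEq κ] (K G : κ → Type) [∀ k, Field (K k)]
    [∀ k, NumberField (K k)] [∀ k, Fintype (G k)] (ι : ∀ k, G k → G k)
    (h : ∀ k, G k → K k) (k : κ) (τ : K k →+* ℂ),
    (pc ι h k τ : LU K G → LU K G → ℂ) ∈ Submodule.span ℂ (Set.range fun l => pair ι h l)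

/-- UH: a balanced product of pairings and determinants is a combination of the products in
`IsProdU`; uses UF and UG. -/
def UH : Prop :=
  ∀ (κ : Type) [Fintype κ] (K G : κ → Type) [∀ k, Field (K k)] [∀ k, NumberField (K k)]
    [∀ k, Fintype (G k)] [∀ k, Nonempty (G k)] (ι : ∀ k, G k → G k) (h : ∀ k, G k → K k),
    (∀ k, IsBlock (ι k) (h k)) →
    ∀ Φ : ∀ i : Σ k, G k, Set (K i.1 →+* ℂ), (∀ k g τ, cj τ ∈ Φ ⟨k, ι k g⟩ ↔ τ ∉ Φ ⟨k, g⟩) →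
    ∀ (E : Type) [Field E] [NumberField E] [IsGalois ℚ E]
    (j : ∀ k, K k →+* E) (τ₀ : E →+* ℂ) (n d r c : ℕ) (pk : Fin d → κ)
    (pτ : ∀ i, K (pk i) →+* ℂ) (blk : Fin r → κ) (τ : ∀ j, K (blk j) →+* ℂ)
    (e : (Fin d × Fin 2) ⊕ (Σ j, G (blk j)) ≃ Fin (2 * n)),
    (∀ j g, ι (blk j) g = g) → d + c = n → BalD Φ τ₀ c blk τ →
    bt ι h pk pτ blk τ e ∈
      Submodule.span ℂ {w : (Fin (2 * n) → LU K G) → ℂ | IsProdU Φ ι h n w}

/-- UI: weights of a product of pairings and determinants: if it does not vanish at a word `t`, then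
`Bal` for `t` and `n * N` is `BalD` for `n - d`. -/
def UI : Prop :=
  ∀ (κ : Type) [Fintype κ] (K G : κ → Type) [∀ k, Field (K k)] [∀ k, NumberField (K k)]
    [∀ k, Fintype (G k)] [∀ k, Nonempty (G k)] (ι : ∀ k, G k → G k) (h : ∀ k, G k → K k),
    (∀ k, IsBlock (ι k) (h k)) →
    ∀ Φ : ∀ i : Σ k, G k, Set (K i.1 →+* ℂ), (∀ k g τ, cj τ ∈ Φ ⟨k, ι k g⟩ ↔ τ ∉ Φ ⟨k, g⟩) →
    ∀ (N : ℕ) (e : κ → ℕ), 0 < N → (∀ k, e k * Fintype.card (G k) = N) →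
    ∀ (E : Type) [Field E] [NumberField E] [IsGalois ℚ E] (j : ∀ k, K k →+* E) (τ₀ : E →+* ℂ)
    (n d r : ℕ) (pk : Fin d → κ) (pτ : ∀ i, K (pk i) →+* ℂ) (blk : Fin r → κ)
    (τ : ∀ j, K (blk j) →+* ℂ) (f : (Fin d × Fin 2) ⊕ (Σ j, G (blk j)) ≃ Fin (2 * n))
    (t : Fin (2 * n) → LU K G), bt ι h pk pτ blk τ f t ≠ 0 →
    (Bal Φ e τ₀ (n * N) t ↔ BalD Φ τ₀ (n - d) blk τ)

/-- UJ: products are rational. -/
def UJ : Prop :=
  ∀ (κ : Type) [Fintype κ] (K G : κ → Type) [∀ k, Field (K k)] [∀ k, NumberField (K k)]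
    [∀ k, Fintype (G k)] [∀ k, Nonempty (G k)] (ι : ∀ k, G k → G k) (h : ∀ k, G k → K k),
    (∀ k, IsBlock (ι k) (h k)) → ∀ (Φ : ∀ i : Σ k, G k, Set (K i.1 →+* ℂ))
    (n : ℕ) (u : (Fin (2 * n) → LU K G) → ℂ), IsProdU Φ ι h n u → u ∈ TQ K G (Fin (2 * n))

/-- UL: the roots kill the products. -/
def UL : Prop :=
  ∀ (κ : Type) [Fintype κ] (K G : κ → Type) [∀ k, Field (K k)] [∀ k, NumberField (K k)]
    [∀ k, Fintype (G k)] [∀ k, Nonempty (G k)] (ι : ∀ k, G k → G k) (h : ∀ k, G k → K k),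
    (∀ k, IsBlock (ι k) (h k)) → ∀ (Φ : ∀ i : Σ k, G k, Set (K i.1 →+* ℂ))
    (n : ℕ) (u : (Fin (2 * n) → LU K G) → ℂ), IsProdU Φ ι h n u →
    ∀ X : ∀ k, Matrix (G k) (G k) (K k), IsSU ι h X → der X u = 0

/-- UM: the torus acts on the products by the power of the norm. -/
def UM : Prop :=
  ∀ (κ : Type) [Fintype κ] (K G : κ → Type) [∀ k, Field (K k)] [∀ k, NumberField (K k)]
    [∀ k, Fintype (G k)] [∀ k, Nonempty (G k)] (ι : ∀ k, G k → G k) (h : ∀ k, G k → K k),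
    (∀ k, IsBlock (ι k) (h k)) →
    ∀ Φ : ∀ i : Σ k, G k, Set (K i.1 →+* ℂ), (∀ k g τ, cj τ ∈ Φ ⟨k, ι k g⟩ ↔ τ ∉ Φ ⟨k, g⟩) →
    ∀ (N : ℕ) (e : κ → ℕ), 0 < N → (∀ k, e k * Fintype.card (G k) = N) →
    ∀ (E : Type) [Field E] [NumberField E] [IsGalois ℚ E] (j : ∀ k, K k →+* E) (τ₀ : E →+* ℂ)
    (n : ℕ) (u : (Fin (2 * n) → LU K G) → ℂ), IsProdU Φ ι h n u →
    ∀ (x : E) (z : ∀ i : Σ k, G k, K i.1), IsReflexNorm Φ (fun i => j i.1) τ₀ x z →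
      scl (fun k => (∏ g, z ⟨k, g⟩) ^ e k) u = (Algebra.norm ℚ x) ^ (n * N) • u

/-- The rational form of the theorem, without `ℚ_p`. -/
def UN : Prop :=
  ∀ (n : ℕ) (κ : Type) [Fintype κ] (K G : κ → Type) [∀ k, Field (K k)]
    [∀ k, NumberField (K k)] [∀ k, Fintype (G k)] [∀ k, Nonempty (G k)] (ι : ∀ k, G k → G k)
    (h : ∀ k, G k → K k), (∀ k, IsBlock (ι k) (h k)) →
    ∀ Φ : ∀ i : Σ k, G k, Set (K i.1 →+* ℂ), (∀ k g τ, cj τ ∈ Φ ⟨k, ι k g⟩ ↔ τ ∉ Φ ⟨k, g⟩) →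
    ∀ (N : ℕ) (e : κ → ℕ), 0 < N → (∀ k, e k * Fintype.card (G k) = N) →
    ∀ (E : Type) [Field E] [NumberField E] [IsGalois ℚ E] (j : ∀ k, K k →+* E) (τ₀ : E →+* ℂ)
      (M : ℕ), 0 < M → ∀ u ∈ TQ K G (Fin (2 * n)),
      (∀ X : ∀ k, Matrix (G k) (G k) (K k), IsSU ι h X → der X u = 0) →
      (∀ y : E, IsIntegral ℤ y → ∀ z : ∀ i : Σ k, G k, K i.1,
        IsReflexNorm Φ (fun i => j i.1) τ₀ (1 + (M : E) * y) z →
        scl (fun k => (∏ g, z ⟨k, g⟩) ^ e k) u =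
          (Algebra.norm ℚ (1 + (M : E) * y)) ^ (n * N) • u) →
      u ∈ Submodule.span ℚ {w : (Fin (2 * n) → LU K G) → ℂ | IsProdU Φ ι h n w}

/-- UO: assembly of the rational form (`UNIT.UD` and `UNIT.UK`). -/
def UO : Prop := UB → UC → UNIT.UD → UH → UI → UJ → UNIT.UK → UN

/-- UP: from the rational form to `ℚ_p`. -/
def UP : Prop := UN → UL → UM → TateU

end

end Pool.Agent.UNJ
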