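import Pool.Agent.Lib.UNIT.Stat

/-!
# The Tate conjecture for products of CM, unitary and symplectic abelian varieties: statement

`K k`, `k : κ`, are finitely many number fields, `G k` finite nonempty sets.  `X = ∏ k, A k` is an
abelian variety, `A k` has multiplication by `K k` and `H_1(A k, ℚ) = (K k)^(G k)`, with the
polarisation given by the form `∑ g, h k g * x g * conj (y (ι k g))`, `ι k` an involution of `G k`:
* either `K k` is a CM field, `ι k` the identity and the form hermitian (if `G k` has one element,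
  `A k` is of CM type);
* or `K k` is totally real and the form alternating.
For an embedding `τ : K k → ℂ` the part of `H_1(A k, ℂ)` on which `K k` acts by `τ` has the basis
`(k, g, τ)`, `g : G k`, and is of type `(1,0)^a + (0,1)^b`, `a` the number of the `g` with
`τ ∈ Φ (k, g)`.

The element `(k, g, τ)` of `Idx` (a letter) is the linear form `x ↦ τ (x (k, g))` on `H_1(X, ℂ)`, and
an element of `H_1(X, ℂ)^{⊗ m}`, that is a class in the Künneth component `⊗ H_1` of
`H_m(X^m, ℂ)`, is given by its values on the words of `m` letters.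
-/

set_option autoImplicit false

open scoped TensorProduct ComplexConjugate
open Complex Pool.Agent.HCM Pool.Agent.RAT Pool.Agent.UNIT

namespace Pool.Agent.UNJ

noncomputable section

/-- The form `∑ g, h g * x g * conj (y (ι g))` on `F^G`, `h g ≠ 0`: either `F` is a CM field, `ι` is
the identity and `h` is real (a hermitian form), or `F` is totally real, `ι` is an involution and
`h (ι g) = - h g` (an alternating form). -/
def IsBlock {F G : Type} [Field F] [NumberField F] (ι : G → G) (h : G → F) : Prop :=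
  (∀ g, h g ≠ 0) ∧
    ((NumberField.IsCMField F ∧ ∀ g, ι g = g ∧ ∀ τ : F →+* ℂ, (τ (h g)).im = 0) ∨
      (NumberField.IsTotallyReal F ∧ ∀ g, ι (ι g) = g ∧ h (ι g) = -h g))

section tensors

variable {κ : Type} {K G : κ → Type} [∀ k, Field (K k)]

/-- `X` lies in the product of the Lie algebras `𝔰𝔲`, `𝔰𝔭` of the forms
`∑ g, h k g * x g * conj (y (ι k g))`. -/
def IsSU [∀ k, Fintype (G k)] (ι : ∀ k, G k → G k) (h : ∀ k, G k → K k)
    (X : ∀ k, Matrix (G k) (G k) (K k)) : Prop :=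
  ∀ k, (X k).trace = 0 ∧ ∀ (τ : K k →+* ℂ) (g g' : G k),
    τ (h k g * X k g g') + conj (τ (X k (ι k g') (ι k g))) * τ (h k g') = 0

/-- Tate classes in `H_1(X, ℚ_p)^{⊗ 2n}` (`N = e k * card (G k)` for all `k`): the Lie algebras
`𝔰𝔲`, `𝔰𝔭` of the forms kill `c`, and, for some `m`, for every `x ∈ 𝓞 E` with `x ≡ 1 mod p^m` the
multiplication by the `e k`-th power of the product over `g : G k` of the reflex norms `z (k, g)` of
`x` acts on `c` by the `nN`-th power of the norm of `x` (for `K k` totally real, the product over `g`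
is the power of the norm of `x` with the exponent `card (G k) / 2`). -/
def IsTateU (p : ℕ) [Fact p.Prime] [Fintype κ] [∀ k, NumberField (K k)] [∀ k, Fintype (G k)]
    {n : ℕ} {E : Type} [Field E] [NumberField E] (Φ : ∀ i : Σ k, G k, Set (K i.1 →+* ℂ))
    (ι : ∀ k, G k → G k) (h : ∀ k, G k → K k) (N : ℕ) (e : κ → ℕ) (j : ∀ k, K k →+* E)
    (τ₀ : E →+* ℂ) (c : ℚ_[p] ⊗[ℚ] ((Fin (2 * n) → LU K G) → ℂ)) : Prop :=
  (∀ X : ∀ k, Matrix (G k) (G k) (K k), IsSU ι h X → (der X).baseChange ℚ_[p] c = 0) ∧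
  ∃ m : ℕ, ∀ y : E, IsIntegral ℤ y → ∀ z : ∀ i : Σ k, G k, K i.1,
    IsReflexNorm Φ (fun i => j i.1) τ₀ (1 + (p : E) ^ m * y) z →
      (scl fun k => (∏ g, z ⟨k, g⟩) ^ e k).baseChange ℚ_[p] c =
        ((Algebra.norm ℚ (1 + (p : E) ^ m * y) ^ (n * N) : ℚ) : ℚ_[p]) • c

open Classical in
/-- The rational tensor of type `(1,1)` dual to the forms `∑ g, h k g * x g * conj (y (ι k g))`,
twisted by `l k ∈ K k`. -/
def pair (ι : ∀ k, G k → G k) (h : ∀ k, G k → K k) (l : ∀ k, K k) (y y' : LU K G) : ℂ :=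
  if y' = ⟨⟨y.1.1, ι y.1.1 y.1.2⟩, cj y.2⟩ then y.2 (l y.1.1 / h y.1.1 y.1.2) else 0

/-- `u` is, up to the order of the factors, the tensor product of `d` rational tensors of type `(1,1)`
in `H_1 ⊗ H_1` and of the transfer, by `K k`-determinants with CM fields `K k` (`ι k` is the
identity), of a class `v` of degree `2c` on a CM abelian variety, a combination of classes of maps
from compact arithmetic quotients of the `c`-ball (a rational number for `c = 0`). -/
def IsProdU [∀ k, Fintype (G k)] [∀ k, NumberField (K k)]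
    (Φ : ∀ i : Σ k, G k, Set (K i.1 →+* ℂ)) (ι : ∀ k, G k → G k) (h : ∀ k, G k → K k) (n : ℕ)
    (u : (Fin (2 * n) → LU K G) → ℂ) : Prop :=
  ∃ (d r c : ℕ) (blk : Fin r → κ) (f : Two c ≃ Σ j, G (blk j))
    (e : (Fin d × Fin 2) ⊕ (Σ j, G (blk j)) ≃ Fin (2 * n)) (l : Fin d → ∀ k, K k)
    (v : (Two c → LC K G blk) → ℂ),
    (∀ j g, ι (blk j) g = g) ∧
    ((c = 0 ∧ ∃ q : ℚ, ∀ t, v t = q) ∨
      (0 < c ∧ IsBallQ (fun i : Σ j, G (blk j) => Φ ⟨blk i.1, i.2⟩) v)) ∧
    ∀ t, u t = (∏ i, pair ι h (l i) (t (e (Sum.inl (i, 0)))) (t (e (Sum.inl (i, 1))))) *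
      detT blk f v fun i => t (e (Sum.inr i))

end tensors

/-- **The Tate conjecture for powers of `X`**, up to `K`-determinants: the Tate classes in
`H_1(X, ℚ_p)^{⊗ 2n}` are the `ℚ_p`-linear combinations of the products of divisor classes and of
transfers of classes of maps from compact arithmetic ball quotients to CM abelian varieties. -/
def TateU : Prop :=
  ∀ (p : ℕ) [Fact p.Prime] (n : ℕ) (κ : Type) [Fintype κ] (K G : κ → Type) [∀ k, Field (K k)]
    [∀ k, NumberField (K k)] [∀ k, Fintype (G k)] [∀ k, Nonempty (G k)] (ι : ∀ k, G k → G k)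
    (h : ∀ k, G k → K k), (∀ k, IsBlock (ι k) (h k)) →
    ∀ Φ : ∀ i : Σ k, G k, Set (K i.1 →+* ℂ), (∀ k g τ, cj τ ∈ Φ ⟨k, ι k g⟩ ↔ τ ∉ Φ ⟨k, g⟩) →
    ∀ (N : ℕ) (e : κ → ℕ), 0 < N → (∀ k, e k * Fintype.card (G k) = N) →
    ∀ (E : Type) [Field E] [NumberField E] [IsGalois ℚ E] (j : ∀ k, K k →+* E) (τ₀ : E →+* ℂ)
      (c : ℚ_[p] ⊗[ℚ] ((Fin (2 * n) → LU K G) → ℂ)),
      c ∈ (TQ K G (Fin (2 * n))).baseChange ℚ_[p] →
      (IsTateU p Φ ι h N e j τ₀ c ↔
        c ∈ Submodule.span ℚ_[p] {w | ∃ u, IsProdU Φ ι h n u ∧ w = (1 : ℚ_[p]) ⊗ₜ[ℚ] u})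

end

end Pool.Agent.UNJ
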