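import Pool.Agent.Lib.UNIT.Short
import Pool.Agent.Lib.UNJ.Stat

/-!
# The Tate conjecture for CM, unitary and symplectic factors: statement, short form

The same statement as `Pool.Agent.UNJ.TateU`, written with the pieces of
`Pool.Agent.Lib.UNIT.Short`.
-/

set_option autoImplicit false

open scoped TensorProduct ComplexConjugate
open Complex Pool.Agent.HCM Pool.Agent.RAT Pool.Agent.UNIT

namespace Pool.Agent.UNJ

noncomputable section

section tate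

variable {κ : Type} {K G : κ → Type} [∀ k, Field (K k)]

/-- Tate classes in `H_1(X, ℚ_p)^{⊗ 2n}` (`N = e k * card (G k)` for all `k`): the Lie algebras
`𝔰𝔲`, `𝔰𝔭` of the forms kill `c`, and, for some `m`, for every `x ∈ 𝓞 E` with `x ≡ 1 mod p^m` the
multiplication by the `e k`-th power of the product over `g : G k` of the reflex norms `z (k, g)` of
`x` acts on `c` by the `nN`-th power of the norm of `x` (for `K k` totally real, the product over `g`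
is the power of the norm of `x` with the exponent `card (G k) / 2`). -/
def IsTateJ (p : ℕ) [Fact p.Prime] [∀ k, Fintype (G k)] {n : ℕ} {E : Type} [Field E]
    [NumberField E] (Φ : ∀ i : Σ k, G k, Set (K i.1 →+* ℂ)) (ι : ∀ k, G k → G k)
    (h : ∀ k, G k → K k) (N : ℕ) (e : κ → ℕ) (j : ∀ k, K k →+* E) (τ₀ : E →+* ℂ)
    (c : ℚ_[p] ⊗[ℚ] ((Fin (2 * n) → LU K G) → ℂ)) : Prop :=
  (∀ X : ∀ k, Matrix (G k) (G k) (K k), IsSU ι h X → KillsP p X c) ∧
  ∃ m : ℕ, ∀ y : E, IsIntegral ℤ y → ∀ z : ∀ i : Σ k, G k, K i.1,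
    IsReflexNorm Φ (fun i => j i.1) τ₀ (1 + (p : E) ^ m * y) z →
      ActsP p (fun k => (∏ g, z ⟨k, g⟩) ^ e k)
        (Algebra.norm ℚ (1 + (p : E) ^ m * y) ^ (n * N)) c

open Classical in
/-- The rational tensor of type `(1,1)` dual to the forms `∑ g, h k g * x g * conj (y (ι k g))`,
twisted by `l k ∈ K k`: with the letter `y = (k, g, τ)` goes `y' = (k, ι g, conj τ)`. -/
def pairJ (ι : ∀ k, G k → G k) (h : ∀ k, G k → K k) (l : ∀ k, K k) (y y' : LU K G) : ℂ :=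
  if y' = cjL (mv y (ι _ (pl y))) then ev y (l (bl y) / h (bl y) (pl y)) else 0

/-- `u` is, up to the order of the factors, the tensor product of `d` rational tensors of type `(1,1)`
in `H_1 ⊗ H_1` and of the transfer, by `K k`-determinants with CM fields `K k` (`ι k` is the
identity), of a class `v` of degree `2c` on a CM abelian variety, a combination of classes of maps
from compact arithmetic quotients of the `c`-ball (a rational number for `c = 0`). -/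
def IsProdJ [∀ k, Fintype (G k)] [∀ k, NumberField (K k)]
    (Φ : ∀ i : Σ k, G k, Set (K i.1 →+* ℂ)) (ι : ∀ k, G k → G k) (h : ∀ k, G k → K k) (n : ℕ)
    (u : (Fin (2 * n) → LU K G) → ℂ) : Prop :=
  ∃ (d r c : ℕ) (blk : Fin r → κ) (f : Two c ≃ Σ j, G (blk j))
    (e : (Fin d × Fin 2) ⊕ (Σ j, G (blk j)) ≃ Fin (2 * n)) (l : Fin d → ∀ k, K k)
    (v : (Two c → LC K G blk) → ℂ),
    (∀ j g, ι (blk j) g = g) ∧
    ((c = 0 ∧ ∃ q : ℚ, ∀ t, v t = q) ∨
      (0 < c ∧ IsBallQ (fun i : Σ j, G (blk j) => Φ ⟨blk i.1, i.2⟩) v)) ∧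
    ∀ t, u t = (∏ i, pairJ ι h (l i) (t (e (Sum.inl (i, 0)))) (t (e (Sum.inl (i, 1))))) *
      detT blk f v fun i => t (e (Sum.inr i))

/-- `c` is a combination, with coefficients in `ℚ_p`, of the products `IsProdJ`. -/
def IsAlgJ (p : ℕ) [Fact p.Prime] [∀ k, Fintype (G k)] [∀ k, NumberField (K k)]
    (Φ : ∀ i : Σ k, G k, Set (K i.1 →+* ℂ)) (ι : ∀ k, G k → G k) (h : ∀ k, G k → K k) {n : ℕ}
    (c : ℚ_[p] ⊗[ℚ] ((Fin (2 * n) → LU K G) → ℂ)) : Prop :=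
  c ∈ Submodule.span ℚ_[p] {w | ∃ u, IsProdJ Φ ι h n u ∧ w = (1 : ℚ_[p]) ⊗ₜ[ℚ] u}

theorem isTateJ_iff (p : ℕ) [Fact p.Prime] [Fintype κ] [∀ k, NumberField (K k)]
    [∀ k, Fintype (G k)] {n : ℕ} {E : Type} [Field E] [NumberField E]
    (Φ : ∀ i : Σ k, G k, Set (K i.1 →+* ℂ)) (ι : ∀ k, G k → G k) (h : ∀ k, G k → K k) (N : ℕ)
    (e : κ → ℕ) (j : ∀ k, K k →+* E) (τ₀ : E →+* ℂ)
    (c : ℚ_[p] ⊗[ℚ] ((Fin (2 * n) → LU K G) → ℂ)) :
    IsTateJ p Φ ι h N e j τ₀ c ↔ IsTateU p Φ ι h N e j τ₀ c := by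
  unfold IsTateJ IsTateU KillsP ActsP
  simp only [sclL_eq, derL_eq]

theorem isProdJ_iff [∀ k, Fintype (G k)] [∀ k, NumberField (K k)]
    (Φ : ∀ i : Σ k, G k, Set (K i.1 →+* ℂ)) (ι : ∀ k, G k → G k) (h : ∀ k, G k → K k) (n : ℕ)
    (u : (Fin (2 * n) → LU K G) → ℂ) : IsProdJ Φ ι h n u ↔ IsProdU Φ ι h n u := Iff.rfl

end tate

/-- **The Tate conjecture for powers of `X`**, up to `K`-determinants: the Tate classes in
`H_1(X, ℚ_p)^{⊗ 2n}` are the `ℚ_p`-linear combinations of the products of divisor classes and of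
transfers of classes of maps from compact arithmetic ball quotients to CM abelian varieties. -/
theorem tateJ (hT : TateU) (p : ℕ) [Fact p.Prime] (n : ℕ) (κ : Type) [Fintype κ]
    (K G : κ → Type) [∀ k, Field (K k)] [∀ k, NumberField (K k)] [∀ k, Fintype (G k)]
    [∀ k, Nonempty (G k)] (ι : ∀ k, G k → G k) (h : ∀ k, G k → K k)
    (hb : ∀ k, IsBlock (ι k) (h k)) (Φ : ∀ i : Σ k, G k, Set (K i.1 →+* ℂ))
    (hΦ : ∀ k g τ, cj τ ∈ Φ ⟨k, ι k g⟩ ↔ τ ∉ Φ ⟨k, g⟩)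
    (N : ℕ) (e : κ → ℕ) (hN : 0 < N) (he : ∀ k, e k * Fintype.card (G k) = N)
    (E : Type) [Field E] [NumberField E] [IsGalois ℚ E] (j : ∀ k, K k →+* E) (τ₀ : E →+* ℂ)
    (c : ℚ_[p] ⊗[ℚ] ((Fin (2 * n) → LU K G) → ℂ)) (hc : IsTensP p c) :
    IsTateJ p Φ ι h N e j τ₀ c ↔ IsAlgJ p Φ ι h c :=
  (isTateJ_iff p Φ ι h N e j τ₀ c).trans (hT p n κ K G ι h hb Φ hΦ N e hN he E j τ₀ c hc)

end

end Pool.Agent.UNJ
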