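import Mathlib

/-!
# UNJ: the invariants of the symplectic algebra, for an involution of the basis (helper94)

`SPFFT` is the statement for the standard basis `I × Bool` (row SPF); here it is transported to a
basis `G` with an involution `i` without fixed points and a form `∑ h g x_g y_(i g)`,
`h (i g) = - h g`.
-/

set_option autoImplicit false

namespace Pool.Agent.UNJ

noncomputable section

/-- The partner of a letter. -/
def fl {I : Type} (p : I × Bool) : I × Bool := (p.1, !p.2)

/-- The sign of a letter. -/
def sg {I : Type} (p : I × Bool) : ℂ := if p.2 then 1 else -1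

/-- The fundamental theorem for the symplectic algebra, standard form. -/
def SPFFT : Prop :=
  ∀ (I T : Type) [Fintype I] [DecidableEq I] [Fintype T] [DecidableEq T]
    (u : (T → I × Bool) → ℂ),
    (∀ p q : I × Bool, p ≠ q → ∀ t : T → I × Bool,
      (∑ a, if t a = p then u (Function.update t a q) else 0) =
        sg p * sg q * ∑ a, if t a = fl q then u (Function.update t a (fl p)) else 0) →
    u ∈ Submodule.span ℂ {w | ∃ (d : ℕ) (e : Fin d × Fin 2 ≃ T), w = fun t : T → I × Bool =>
      ∏ i, if t (e (i, 1)) = fl (t (e (i, 0))) then sg (t (e (i, 0))) else 0}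

/-- An involution without fixed points has a set of representatives. -/
theorem exists_rep {G : Type} [Fintype G] (i : G → G) (hi : ∀ g, i (i g) = g)
    (hn : ∀ g, i g ≠ g) : ∃ (I : Type) (_ : Fintype I) (_ : DecidableEq I) (e : G ≃ I × Bool),
      ∀ g, e (i g) = fl (e g) := by
  classical
  let o : G ≃ Fin (Fintype.card G) := Fintype.equivFin G
  let I : Type := {g : G // o g < o (i g)}
  have hlt : ∀ g, ¬ o g < o (i g) → o (i g) < o (i (i g)) := by
    intro g h
    rw [hi]
    have h1 : o (i g) ≠ o g := fun h => hn g (o.injective h)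
    omega
  let e : G ≃ I × Bool :=
    { toFun := fun g => if h : o g < o (i g) then (⟨g, h⟩, true) else (⟨i g, hlt g h⟩, false)
      invFun := fun p => if p.2 then p.1.1 else i p.1.1
      left_inv := by
        intro g
        by_cases h : o g < o (i g)
        · simp [h]
        · simp [h, hi]
      right_inv := by
        rintro ⟨⟨g, hg⟩, b⟩
        cases b
        · have h1 : ¬ o (i g) < o g := by omega
          simp [h1, hi]
        · simp [hg] }
  refine ⟨I, inferInstance, inferInstance, e, fun g => ?_⟩
  change (if h : o (i g) < o (i (i g)) then ((⟨i g, h⟩ : I), true)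
    else (⟨i (i g), hlt (i g) h⟩, false)) =
      fl (if h : o g < o (i g) then ((⟨g, h⟩ : I), true) else (⟨i g, hlt g h⟩, false))
  by_cases h : o g < o (i g)
  · have h1 : ¬ o (i g) < o (i (i g)) := by
      rw [hi]
      omega
    rw [dif_pos h, dif_neg h1]
    simp [fl, hi]
  · have h1 := hlt g h
    rw [dif_neg h, dif_pos h1]
    simp [fl]

/-- **Row SPB**: the invariants of the symplectic algebra of the form `∑ h g x_g y_(i g)`. -/
theorem spblk (H : SPFFT) {G T : Type} [Fintype G] [DecidableEq G] [Fintype T] [DecidableEq T]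
    (i : G → G) (hi : ∀ g, i (i g) = g) (h : G → ℂ) (h0 : ∀ g, h g ≠ 0)
    (hh : ∀ g, h (i g) = - h g) (u : (T → G) → ℂ)
    (hu : ∀ g g' : G, g ≠ g' → ∀ t : T → G,
      (∑ a, if t a = g then u (Function.update t a g') else 0) =
        h g / h g' * ∑ a, if t a = i g' then u (Function.update t a (i g)) else 0) :
    u ∈ Submodule.span ℂ {w | ∃ (d : ℕ) (e : Fin d × Fin 2 ≃ T), w = fun t : T → G =>
      ∏ r, if t (e (r, 1)) = i (t (e (r, 0))) then (h (t (e (r, 0))))⁻¹ else 0} := by
  classical
  have hn : ∀ g, i g ≠ g := by
    intro g hg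
    have h1 := hh g
    rw [hg] at h1
    have h2 : h g + h g = 0 := by linear_combination h1
    exact h0 g (by linear_combination h2 / 2)
  obtain ⟨I, _, _, e, he⟩ := exists_rep i hi hn
  let d : G → ℂ := fun g => if (e g).2 then h g else 1
  have hd0 : ∀ g, d g ≠ 0 := by
    intro g
    simp only [d]
    split_ifs
    · exact h0 g
    · exact one_ne_zero
  have hdd : ∀ g, h g = sg (e g) * (d g * d (i g)) := by
    intro g
    simp only [d, sg, he g, fl]
    cases hb : (e g).2
    · simp [hh]
    · simp
  have hsg : ∀ p : I × Bool, sg p * sg p = 1 := by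
    intro p
    unfold sg
    split_ifs <;> norm_num
  have hsg0 : ∀ p : I × Bool, sg p ≠ 0 := by
    intro p
    unfold sg
    split_ifs <;> norm_num
  let v : (T → I × Bool) → ℂ := fun t => (∏ a, d (e.symm (t a))) * u fun a => e.symm (t a)
  have hpr : ∀ (t : T → G) (a : T) (g' : G), (∏ b, d (Function.update t a g' b)) =
      d g' / d (t a) * ∏ b, d (t b) := by
    intro t a g'
    rw [← Finset.mul_prod_erase Finset.univ (fun b => d (Function.update t a g' b))
      (Finset.mem_univ a), ← Finset.mul_prod_erase Finset.univ (fun b => d (t b))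
      (Finset.mem_univ a), Function.update_self]
    have h1 : ∏ x ∈ Finset.univ.erase a, d (Function.update t a g' x) =
        ∏ x ∈ Finset.univ.erase a, d (t x) := by
      refine Finset.prod_congr rfl fun b hb => ?_
      rw [Function.update_of_ne (Finset.ne_of_mem_erase hb)]
    rw [h1]
    have := hd0 (t a)
    field_simp
  have hv : v ∈ Submodule.span ℂ {w | ∃ (d : ℕ) (e : Fin d × Fin 2 ≃ T),
      w = fun t : T → I × Bool =>
        ∏ i, if t (e (i, 1)) = fl (t (e (i, 0))) then sg (t (e (i, 0))) else 0} := by
    refine H I T v fun p q hpq t => ?_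
    have hup : ∀ (a : T) (r : I × Bool), (fun b => e.symm (Function.update t a r b)) =
        Function.update (fun b => e.symm (t b)) a (e.symm r) := by
      intro a r
      funext b
      by_cases hb : b = a
      · subst hb
        simp
      · simp [hb]
    have hval : ∀ (a : T) (r : I × Bool), v (Function.update t a r) =
        d (e.symm r) / d (e.symm (t a)) * (∏ b, d (e.symm (t b))) *
          u (Function.update (fun b => e.symm (t b)) a (e.symm r)) := by
      intro a r
      have h1 := hpr (fun b => e.symm (t b)) a (e.symm r)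
      rw [← hup] at h1
      simp only [v]
      rw [h1, hup]
    have hflp : ∀ r : I × Bool, e.symm (fl r) = i (e.symm r) := by
      intro r
      rw [Equiv.symm_apply_eq, he, Equiv.apply_symm_apply]
    have hL : (∑ a, if t a = p then v (Function.update t a q) else 0) =
        d (e.symm q) / d (e.symm p) * (∏ b, d (e.symm (t b))) *
          ∑ a, if e.symm (t a) = e.symm p then
            u (Function.update (fun b => e.symm (t b)) a (e.symm q)) else 0 := by
      rw [Finset.mul_sum]
      refine Finset.sum_congr rfl fun a _ => ?_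
      by_cases hc : t a = p
      · rw [if_pos hc, if_pos (by rw [hc]), hval, hc]
      · rw [if_neg hc, if_neg (fun h => hc (e.symm.injective h)), mul_zero]
    have hR : (∑ a, if t a = fl q then v (Function.update t a (fl p)) else 0) =
        d (i (e.symm p)) / d (i (e.symm q)) * (∏ b, d (e.symm (t b))) *
          ∑ a, if e.symm (t a) = i (e.symm q) then
            u (Function.update (fun b => e.symm (t b)) a (i (e.symm p))) else 0 := by
      rw [Finset.mul_sum]
      refine Finset.sum_congr rfl fun a _ => ?_
      by_cases hc : t a = fl q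
      · rw [if_pos hc, if_pos (by rw [hc, hflp]), hval, hc, hflp, hflp]
      · rw [if_neg hc, if_neg (fun h => hc (e.symm.injective (by rw [h, hflp]))), mul_zero]
    rw [hL, hR, hu (e.symm p) (e.symm q) (fun h => hpq (e.symm.injective h))
      (fun b => e.symm (t b))]
    have h1 := hdd (e.symm p)
    have h2 := hdd (e.symm q)
    rw [Equiv.apply_symm_apply] at h1 h2
    rw [h1, h2]
    have a1 := hd0 (e.symm p)
    have a2 := hd0 (e.symm q)
    have a3 := hd0 (i (e.symm p))
    have a4 := hd0 (i (e.symm q))
    have a5 := hsg0 q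
    have a6 := hsg q
    have a7 : (sg q)⁻¹ = sg q := by
      rw [inv_eq_iff_eq_inv]
      exact eq_inv_of_mul_eq_one_left a6
    have a8 : sg p * sg q = sg p / sg q := by rw [div_eq_mul_inv, a7]
    rw [a8]
    field_simp
  have hu' : ∀ t : T → G, u t = (∏ a, d (t a))⁻¹ * v fun a => e (t a) := by
    intro t
    simp only [v, Equiv.symm_apply_apply]
    rw [← mul_assoc, inv_mul_cancel₀ (Finset.prod_ne_zero_iff.2 fun a _ => hd0 (t a)), one_mul]
  have hlin : ∀ w : (T → I × Bool) → ℂ, w ∈ Submodule.span ℂ {w | ∃ (d : ℕ)
      (e : Fin d × Fin 2 ≃ T), w = fun t : T → I × Bool =>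
        ∏ i, if t (e (i, 1)) = fl (t (e (i, 0))) then sg (t (e (i, 0))) else 0} →
      (fun t : T → G => (∏ a, d (t a))⁻¹ * w fun a => e (t a)) ∈
        Submodule.span ℂ {w | ∃ (d : ℕ) (e : Fin d × Fin 2 ≃ T), w = fun t : T → G =>
          ∏ r, if t (e (r, 1)) = i (t (e (r, 0))) then (h (t (e (r, 0))))⁻¹ else 0} := by
    intro w hw
    induction hw using Submodule.span_induction with
    | mem w hw =>
      obtain ⟨m, f, rfl⟩ := hw
      refine Submodule.subset_span ⟨m, f, ?_⟩
      funext t
      have b1 : ∏ a, d (t a) = ∏ r : Fin m, (d (t (f (r, 0))) * d (t (f (r, 1)))) := by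
        rw [← Equiv.prod_comp f fun a => d (t a), Fintype.prod_prod_type]
        exact Finset.prod_congr rfl fun r _ => Fin.prod_univ_two _
      rw [b1, ← Finset.prod_inv_distrib]
      beta_reduce
      rw [← Finset.prod_mul_distrib]
      refine Finset.prod_congr rfl fun r _ => ?_
      by_cases hc : t (f (r, 1)) = i (t (f (r, 0)))
      · rw [if_pos hc, if_pos (by rw [hc, he]), hc]
        have a1 := hd0 (t (f (r, 0)))
        have a2 := hd0 (i (t (f (r, 0))))
        have a3 := hsg0 (e (t (f (r, 0))))
        have a4 := hsg (e (t (f (r, 0))))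
        have a7 : (sg (e (t (f (r, 0)))))⁻¹ = sg (e (t (f (r, 0)))) := by
          rw [inv_eq_iff_eq_inv]
          exact eq_inv_of_mul_eq_one_left a4
        rw [hdd (t (f (r, 0))), mul_inv (sg (e (t (f (r, 0))))), a7]
        ring
      · rw [if_neg hc, if_neg (fun h => hc (e.injective (by rw [h, he]))), mul_zero]
    | zero =>
      have h1 : (fun t : T → G => (∏ a, d (t a))⁻¹ * (0 : (T → I × Bool) → ℂ) fun a => e (t a)) =
          0 := by
        funext t
        simp
      rw [h1]
      exact Submodule.zero_mem _
    | add w w' _ _ hw hw' =>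
      have h1 : (fun t : T → G => (∏ a, d (t a))⁻¹ * (w + w') fun a => e (t a)) =
          (fun t : T → G => (∏ a, d (t a))⁻¹ * w fun a => e (t a)) +
            fun t : T → G => (∏ a, d (t a))⁻¹ * w' fun a => e (t a) := by
        funext t
        simp [mul_add]
      rw [h1]
      exact Submodule.add_mem _ hw hw'
    | smul c w _ hw =>
      have h1 : (fun t : T → G => (∏ a, d (t a))⁻¹ * (c • w) fun a => e (t a)) =
          c • fun t : T → G => (∏ a, d (t a))⁻¹ * w fun a => e (t a) := by
        funext t
        simp only [Pi.smul_apply, smul_eq_mul]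
        ring
      rw [h1]
      exact Submodule.smul_mem _ _ hw
  have h9 := hlin v hv
  have h10 : (fun t : T → G => (∏ a, d (t a))⁻¹ * v fun a => e (t a)) = u :=
    funext fun t => (hu' t).symm
  rw [h10] at h9
  exact h9

end

end Pool.Agent.UNJ
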