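import Pool.Agent.Lib.GG.Core
import Pool.Agent.Lib.GG.OPS
import Pool.Agent.Lib.GG.Energy
import Pool.Agent.Lib.GG.Omg
import Pool.Agent.Lib.UNJ.SpBlk

/-!
# The first fundamental theorem for `𝔰𝔭`, scalar tensors (helper5)

`G` is a basis of the symplectic space, `ι` the involution with `(g, ι g')` dual up to `h g`.
A function of words in `G` killed by the root operators is a combination of products of pairings.
-/

set_option autoImplicit false

open scoped ComplexConjugate Matrix
open Complex Function

namespace Pool.Agent.UNJ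

open Pool.Agent.GG

noncomputable section

section weight

variable {T G : Type} [Fintype T] [DecidableEq T] [DecidableEq G]

/-- The sum over two different places. -/
def dbl (v : (T → G) → ℂ) (g g' : G) (t : T → G) : ℂ :=
  ∑ a, ∑ b, if a ≠ b ∧ t a = g ∧ t b = g' then v (update (update t a g') b g) else 0

theorem comm_aux (v : (T → G) → ℂ) (g g' : G) (t : T → G) :
    ∑ a, (if t a = g then ∑ b, (if update t a g' b = g' then
      v (update (update t a g') b g) else 0) else 0) =
      ((Finset.univ.filter fun a => t a = g).card : ℂ) * v t + dbl v g g' t := by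
  have h1 : ((Finset.univ.filter fun a => t a = g).card : ℂ) * v t =
      ∑ a, if t a = g then v t else 0 := by
    rw [← Finset.sum_filter, Finset.sum_const, nsmul_eq_mul]
  rw [h1, dbl, ← Finset.sum_add_distrib]
  refine Finset.sum_congr rfl fun a _ => ?_
  by_cases ha : t a = g
  · rw [if_pos ha, if_pos ha, ← Finset.add_sum_erase _ _ (Finset.mem_univ a),
      ← Finset.add_sum_erase (Finset.univ : Finset T) (fun b => if a ≠ b ∧ t a = g ∧ t b = g' then
        v (update (update t a g') b g) else 0) (Finset.mem_univ a)]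
    rw [update_self, if_pos rfl, update_idem, if_neg (fun h => h.1 rfl), zero_add]
    have h2 : update t a g = t := by rw [← ha, update_eq_self]
    rw [h2]
    congr 1
    refine Finset.sum_congr rfl fun b hb => ?_
    have hba : b ≠ a := Finset.ne_of_mem_erase hb
    rw [update_of_ne hba]
    by_cases hb' : t b = g'
    · rw [if_pos hb', if_pos ⟨hba.symm, ha, hb'⟩]
    · rw [if_neg hb', if_neg fun h => hb' h.2.2]
  · rw [if_neg ha, if_neg ha, zero_add, eq_comm]
    exact Finset.sum_eq_zero fun b _ => if_neg fun h => ha h.2.1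

theorem dbl_comm (v : (T → G) → ℂ) (g g' : G) (t : T → G) : dbl v g g' t = dbl v g' g t := by
  rw [dbl, dbl, Finset.sum_comm]
  refine Finset.sum_congr rfl fun b _ => Finset.sum_congr rfl fun a _ => ?_
  by_cases h : a ≠ b ∧ t a = g ∧ t b = g'
  · rw [if_pos h, if_pos ⟨h.1.symm, h.2.2, h.2.1⟩, update_comm h.1]
  · rw [if_neg h, if_neg fun h' => h ⟨h'.1.symm, h'.2.2, h'.2.1⟩]

theorem weight_eq (v : (T → G) → ℂ) (g g' : G)
    (h1 : ∀ t, ∑ a, (if t a = g then v (update t a g') else 0) = 0)
    (h2 : ∀ t, ∑ a, (if t a = g' then v (update t a g) else 0) = 0) (t : T → G) (ht : v t ≠ 0) :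
    (Finset.univ.filter fun a => t a = g).card = (Finset.univ.filter fun a => t a = g').card := by
  have e1 := comm_aux v g g' t
  have e2 := comm_aux v g' g t
  have z1 : ∑ a, (if t a = g then ∑ b, (if update t a g' b = g' then
      v (update (update t a g') b g) else 0) else 0) = 0 :=
    Finset.sum_eq_zero fun a _ => by rw [h2, ite_self]
  have z2 : ∑ a, (if t a = g' then ∑ b, (if update t a g b = g then
      v (update (update t a g) b g') else 0) else 0) = 0 :=
    Finset.sum_eq_zero fun a _ => by rw [h1, ite_self]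
  rw [z1] at e1
  rw [z2, dbl_comm v g' g] at e2
  have h3 : ((Finset.univ.filter fun a => t a = g).card : ℂ) * v t =
      ((Finset.univ.filter fun a => t a = g').card : ℂ) * v t := by
    have := e1.symm.trans e2
    exact add_right_cancel this
  exact_mod_cast mul_right_cancel₀ ht h3

end weight

section half

variable {G : Type} [Fintype G]

/-- A half of a set with an involution without fixed points. -/
theorem exists_half (ι : G → G) (hι : ∀ g, ι (ι g) = g) (hne : ∀ g, ι g ≠ g) :
    ∃ σ : G → Bool, ∀ g, σ (ι g) = !σ g := by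
  classical
  let e := Fintype.equivFin G
  refine ⟨fun g => decide (e g < e (ι g)), fun g => ?_⟩
  simp only [hι]
  have h1 : e g ≠ e (ι g) := fun h => hne g (e.injective h).symm
  rcases lt_or_gt_of_ne h1 with h | h
  · simp [h, h.le]
  · simp [h, not_lt.2 h.le]

end half

/-- The half on which `σ` is true. -/
abbrev Hf {G : Type} (σ : G → Bool) : Type := {g : G // σ g = true}

/-- The letters of the standard symplectic space with basis `Hf σ × Bool`. -/
abbrev AH {G : Type} (σ : G → Bool) : Type :=
  AL (S := Unit) (fun _ => Unit) (fun _ => Hf σ)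

section letters

variable {G : Type} (σ : G → Bool) (ι : G → G) (h : G → ℂ)

/-- From the standard letters to `G`. -/
def thet (y : AH σ) : G := if y.2 = true then y.1.2.2.1 else ι y.1.2.2.1

/-- The scaling. -/
def scal (y : AH σ) : ℂ := if y.2 = true then 1 else h y.1.2.2.1

/-- The letter `(g, b)`. -/
def mkl (g : Hf σ) (b : Bool) : AH σ := (⟨(), ((), g)⟩, b)

variable {σ ι h}

theorem thet_true (g : Hf σ) : thet σ ι (mkl σ g true) = g.1 := rfl

theorem thet_false (g : Hf σ) : thet σ ι (mkl σ g false) = ι g.1 := rfl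

theorem scal_true (g : Hf σ) : scal σ h (mkl σ g true) = 1 := rfl

theorem scal_false (g : Hf σ) : scal σ h (mkl σ g false) = h g.1 := rfl

theorem scal_ne (h0 : ∀ g, h g ≠ 0) (y : AH σ) : scal σ h y ≠ 0 := by
  unfold scal
  split_ifs
  · exact one_ne_zero
  · exact h0 _

theorem thet_bij (hι : ∀ g, ι (ι g) = g) (hσ : ∀ g, σ (ι g) = !σ g) :
    Function.Bijective (thet σ ι) := by
  constructor
  · rintro ⟨⟨⟨⟩, ⟨⟨⟩, g⟩⟩, b⟩ ⟨⟨⟨⟩, ⟨⟨⟩, g'⟩⟩, b'⟩ hgg
    cases b <;> cases b'
    · have h1 : ι g.1 = ι g'.1 := hgg
      have h2 : g.1 = g'.1 := by rw [← hι g.1, h1, hι]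
      have h3 : g = g' := Subtype.ext h2
      subst h3
      rfl
    · have h1 : ι g.1 = g'.1 := hgg
      have h2 := g'.2
      rw [← h1, hσ, g.2] at h2
      exact absurd h2 (by simp)
    · have h1 : g.1 = ι g'.1 := hgg
      have h2 := g.2
      rw [h1, hσ, g'.2] at h2
      exact absurd h2 (by simp)
    · have h1 : g.1 = g'.1 := hgg
      have h3 : g = g' := Subtype.ext h1
      subst h3
      rfl
  · intro g
    by_cases hg : σ g = true
    · exact ⟨mkl σ ⟨g, hg⟩ true, rfl⟩
    · refine ⟨mkl σ ⟨ι g, by rw [hσ]; simpa using hg⟩ false, ?_⟩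
      rw [thet_false]
      exact hι g

variable [Fintype G] [DecidableEq G]

/-- The pairing of two letters. -/
def bet (ι : G → G) (h : G → ℂ) (x x' : G) : ℂ := if x' = ι x then (h x)⁻¹ else 0

theorem ps_bet (hι : ∀ g, ι (ι g) = g) (hσ : ∀ g, σ (ι g) = !σ g) (h0 : ∀ g, h g ≠ 0)
    (hh : ∀ g, h (ι g) = -h g) (y y' : AH σ) :
    ps (S := Unit) (M := fun _ => Unit) (G := fun _ => Hf σ) () () () y y' =
      scal σ h y * scal σ h y' * bet ι h (thet σ ι y) (thet σ ι y') := by
  classical
  obtain ⟨⟨⟨⟩, ⟨⟨⟩, g⟩⟩, b⟩ := y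
  obtain ⟨⟨⟨⟩, ⟨⟨⟩, g'⟩⟩, b'⟩ := y'
  rw [ps_apply]
  cases b <;> cases b'
  · have h1 : bet ι h (thet σ ι (mkl σ g false)) (thet σ ι (mkl σ g' false)) = 0 := by
      rw [thet_false, thet_false, bet, if_neg]
      rw [hι]
      intro h2
      have h3 := g.2
      rw [← h2, hσ, g'.2] at h3
      exact absurd h3 (by simp)
    have h4 : bet ι h (thet σ ι ((⟨(), ((), g)⟩, false) : AH σ))
      (thet σ ι ((⟨(), ((), g')⟩, false) : AH σ)) = 0 := h1
    rw [h4, mul_zero]
    refine Finset.sum_eq_zero fun k _ => ?_
    rw [if_neg, if_neg, sub_zero]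
    · rintro ⟨-, h2⟩
      exact absurd (congrArg Prod.snd h2) (by simp)
    · rintro ⟨h2, -⟩
      exact absurd (congrArg Prod.snd h2) (by simp)
  · have h1 : scal σ h (mkl σ g false) * scal σ h (mkl σ g' true) *
        bet ι h (thet σ ι (mkl σ g false)) (thet σ ι (mkl σ g' true)) =
        if g = g' then -1 else 0 := by
      rw [thet_false, thet_true, bet, hι, scal_false, scal_true, mul_one, hh]
      by_cases hg : g = g'
      · subst hg
        rw [if_pos rfl, if_pos rfl, inv_neg, mul_neg, mul_inv_cancel₀ (h0 _)]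
      · rw [if_neg fun h2 => hg (Subtype.ext h2.symm), if_neg hg, mul_zero]
    refine Eq.trans ?_ h1.symm
    rw [Finset.sum_eq_single g]
    · rw [if_neg, zero_sub]
      · by_cases hg : g = g'
        · subst hg
          rw [if_pos ⟨rfl, rfl⟩, if_pos rfl]
        · rw [if_neg, if_neg hg, neg_zero]
          rintro ⟨-, h2⟩
          apply hg
          have h3 := congrArg (fun z : AH σ => z.1.2.2) h2
          exact h3.symm
      · rintro ⟨h2, -⟩
        exact absurd (congrArg Prod.snd h2) (by simp)
    · intro k _ hk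
      rw [if_neg, if_neg, sub_zero]
      · rintro ⟨h2, -⟩
        exact hk (congrArg (fun z : AH σ => z.1.2.2) h2).symm
      · rintro ⟨h2, -⟩
        exact absurd (congrArg Prod.snd h2) (by simp)
    · intro h2
      exact absurd (Finset.mem_univ _) h2
  · have h1 : scal σ h (mkl σ g true) * scal σ h (mkl σ g' false) *
        bet ι h (thet σ ι (mkl σ g true)) (thet σ ι (mkl σ g' false)) =
        if g = g' then 1 else 0 := by
      rw [thet_false, thet_true, bet, scal_false, scal_true, one_mul]
      by_cases hg : g = g'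
      · subst hg
        rw [if_pos rfl, if_pos rfl, mul_inv_cancel₀ (h0 _)]
      · rw [if_neg, if_neg hg, mul_zero]
        intro h2
        apply hg
        apply Subtype.ext
        rw [← hι g.1, ← h2, hι]
    refine Eq.trans ?_ h1.symm
    rw [Finset.sum_eq_single g]
    · have h5 : ¬ (((⟨(), ((), g)⟩, true) : AH σ) = (⟨(), ((), g)⟩, false) ∧
          ((⟨(), ((), g')⟩, false) : AH σ) = (⟨(), ((), g)⟩, true)) := fun h2 =>
        absurd (congrArg Prod.snd h2.1) (by simp)
      rw [if_neg h5, sub_zero]
      by_cases hg : g = g'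
      · subst hg
        rw [if_pos ⟨rfl, rfl⟩, if_pos rfl]
      · rw [if_neg, if_neg hg]
        rintro ⟨-, h2⟩
        apply hg
        have h3 := congrArg (fun z : AH σ => z.1.2.2) h2
        exact h3.symm
    · intro k _ hk
      rw [if_neg, if_neg, sub_zero]
      · rintro ⟨h2, -⟩
        exact absurd (congrArg Prod.snd h2) (by simp)
      · rintro ⟨h2, -⟩
        exact hk (congrArg (fun z : AH σ => z.1.2.2) h2).symm
    · intro h2
      exact absurd (Finset.mem_univ _) h2
  · have h1 : bet ι h (thet σ ι (mkl σ g true)) (thet σ ι (mkl σ g' true)) = 0 := by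
      rw [thet_true, thet_true, bet, if_neg]
      intro h2
      have h3 := g'.2
      rw [h2, hσ, g.2] at h3
      exact absurd h3 (by simp)
    have h4 : bet ι h (thet σ ι ((⟨(), ((), g)⟩, true) : AH σ))
      (thet σ ι ((⟨(), ((), g')⟩, true) : AH σ)) = 0 := h1
    rw [h4, mul_zero]
    refine Finset.sum_eq_zero fun k _ => ?_
    rw [if_neg, if_neg, sub_zero]
    · rintro ⟨h2, -⟩
      exact absurd (congrArg Prod.snd h2) (by simp)
    · rintro ⟨-, h2⟩
      exact absurd (congrArg Prod.snd h2) (by simp)

end letters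

section main

variable {G : Type} [Fintype G] [DecidableEq G] {σ : G → Bool} {ι : G → G} {h : G → ℂ}
  {T : Type} [Fintype T] [DecidableEq T]

/-- The function of words in the standard letters. -/
def liftA (σ : G → Bool) (ι : G → G) (h : G → ℂ) (v : (T → G) → ℂ) (t : T → AH σ) : ℂ :=
  (∏ a, scal σ h (t a)) * v fun a => thet σ ι (t a)

omit [Fintype G] [DecidableEq G] in
theorem liftA_update (v : (T → G) → ℂ) (t : T → AH σ) (i : T) (c : Hf σ)
    (hc : t i = mkl σ c true) (a : Hf σ) :
    liftA σ ι h v (update t i (mkl σ a false)) = (∏ b, scal σ h (t b)) * (h a.1 *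
      v (update (fun b => thet σ ι (t b)) i (ι a.1))) := by
  unfold liftA
  have h1 : ∏ b, scal σ h (update t i (mkl σ a false) b) = h a.1 * ∏ b, scal σ h (t b) := by
    rw [← Finset.mul_prod_erase _ _ (Finset.mem_univ i),
      ← Finset.mul_prod_erase Finset.univ (fun b => scal σ h (t b)) (Finset.mem_univ i),
      update_self, scal_false, hc, scal_true, one_mul]
    congr 1
    refine Finset.prod_congr rfl fun b hb => ?_
    rw [update_of_ne (Finset.ne_of_mem_erase hb)]
  have h2 : (fun b => thet σ ι (update t i (mkl σ a false) b)) =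
      update (fun b => thet σ ι (t b)) i (ι a.1) := by
    funext b
    by_cases hb : b = i
    · subst hb
      rw [update_self, update_self, thet_false]
    · rw [update_of_ne hb, update_of_ne hb]
  rw [h1, h2]
  ring

/-- The raising operators kill the lift. -/
theorem lift_raise (hι : ∀ g, ι (ι g) = g) (hσ : ∀ g, σ (ι g) = !σ g) (h0 : ∀ g, h g ≠ 0)
    (hh : ∀ g, h (ι g) = -h g) (v : (T → G) → ℂ)
    (hv : ∀ g g', g ≠ g' → ∀ t : T → G, (∑ a, if t a = g then v (update t a g') else 0) -
      h g / h g' * ∑ a, (if t a = ι g' then v (update t a (ι g)) else 0) = 0)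
    (a c : Hf σ) :
    GG.der Finset.univ (raise (S := Unit) (M := fun _ => Unit) (G := fun _ => Hf σ) () a c)
      (liftA σ ι h v : (T → AH σ) → ℂ) = 0 := by
  classical
  funext t
  rw [En.der_raise]
  have key : ∀ a c : Hf σ, ∑ i : T, ∑ m : Unit,
      En.vt (liftA σ ι h v : (T → AH σ) → ℂ) () i m a c t = (∏ b, scal σ h (t b)) *
        (h a.1 * ∑ i, if thet σ ι (t i) = c.1 then
          v (update (fun b => thet σ ι (t b)) i (ι a.1)) else 0) := by
    intro a c
    rw [Finset.mul_sum, Finset.mul_sum]
    refine Finset.sum_congr rfl fun i _ => ?_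
    rw [Fintype.sum_unique]
    change En.vt (liftA σ ι h v : (T → AH σ) → ℂ) () i () a c t = _
    by_cases hc : t i = mkl σ c true
    · have h1 : En.vt (liftA σ ι h v : (T → AH σ) → ℂ) () i () a c t =
          liftA σ ι h v (update t i (mkl σ a false)) := by
        unfold En.vt
        refine Eq.trans (if_pos hc) ?_
        congr 1
      rw [h1, if_pos (by rw [hc]; rfl)]
      exact liftA_update v t i c hc a
    · have h1 : En.vt (liftA σ ι h v : (T → AH σ) → ℂ) () i () a c t = 0 := by
        unfold En.vt
        exact if_neg hc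
      rw [h1, if_neg, mul_zero, mul_zero]
      intro h1
      exact hc ((thet_bij hι hσ).1 h1)
  rw [key, key, ← mul_add]
  have hne : c.1 ≠ ι a.1 := by
    intro h1
    have h2 := c.2
    rw [h1, hσ, a.2] at h2
    exact absurd h2 (by simp)
  have h1 := hv c.1 (ι a.1) hne fun b => thet σ ι (t b)
  rw [hι, hh] at h1
  have h2 : h a.1 * (∑ i, if thet σ ι (t i) = c.1 then
      v (update (fun b => thet σ ι (t b)) i (ι a.1)) else 0) +
      h c.1 * (∑ i, if thet σ ι (t i) = a.1 then
      v (update (fun b => thet σ ι (t b)) i (ι c.1)) else 0) = 0 := by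
    have h3 := h0 a.1
    have h4 : ∀ x y : ℂ, x - h c.1 / -h a.1 * y = 0 → h a.1 * x + h c.1 * y = 0 := by
      intro x y hxy
      have h5 : h a.1 * (x - h c.1 / -h a.1 * y) = h a.1 * x + h c.1 * y := by
        rw [div_neg]
        field_simp
        ring
      rw [← h5, hxy, mul_zero]
    exact h4 _ _ h1
  rw [h2, mul_zero]
  rfl

omit [DecidableEq T] in
/-- Half of the letters of a word in the support are in each half. -/
theorem card_half (hι : ∀ g, ι (ι g) = g) (hσ : ∀ g, σ (ι g) = !σ g) (b : T → G)
    (hb : ∀ g, (Finset.univ.filter fun a => b a = g).card =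
      (Finset.univ.filter fun a => b a = ι g).card) :
    2 * (Finset.univ.filter fun a => σ (b a) = false).card = Fintype.card T := by
  classical
  let ε : G → ℤ := fun g => if σ g = false then -1 else 1
  have hε : ∀ g, ε (ι g) = -ε g := by
    intro g
    simp only [ε, hσ]
    cases σ g <;> simp
  have h1 : ∑ a, ε (b a) = ∑ g, ((Finset.univ.filter fun a => b a = g).card : ℤ) * ε g := by
    have h2 : ∀ a, ε (b a) = ∑ g, if b a = g then ε g else 0 := by
      intro a
      rw [Finset.sum_ite_eq, if_pos (Finset.mem_univ _)]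
    rw [Finset.sum_congr rfl fun a _ => h2 a, Finset.sum_comm]
    refine Finset.sum_congr rfl fun g _ => ?_
    rw [← Finset.sum_filter, Finset.sum_const, nsmul_eq_mul]
  have h2 : ∑ g, ((Finset.univ.filter fun a => b a = g).card : ℤ) * ε g =
      -∑ g, ((Finset.univ.filter fun a => b a = g).card : ℤ) * ε g := by
    rw [← Finset.sum_neg_distrib,
      ← Equiv.sum_comp (Function.Involutive.toPerm ι hι)
        (fun g => ((Finset.univ.filter fun a => b a = g).card : ℤ) * ε g)]
    refine Finset.sum_congr rfl fun g _ => ?_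
    change ((Finset.univ.filter fun a => b a = ι g).card : ℤ) * ε (ι g) = _
    rw [← hb, hε, mul_neg]
  have h3 : ∑ a, ε (b a) = 0 := by
    rw [h1]
    omega
  have h4 : ∑ a, ε (b a) = (Fintype.card T : ℤ) -
      2 * ((Finset.univ.filter fun a => σ (b a) = false).card : ℤ) := by
    have h5 : ∀ a, ε (b a) = 1 - 2 * if σ (b a) = false then 1 else 0 := by
      intro a
      simp only [ε]
      split_ifs <;> norm_num
    rw [Finset.sum_congr rfl fun a _ => h5 a, Finset.sum_sub_distrib, ← Finset.mul_sum,
      ← Finset.sum_filter, Finset.sum_const, Finset.sum_const, Finset.card_univ]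
    simp
  omega

end main

/-- **The first fundamental theorem for `𝔰𝔭`**, for an involution of the basis. -/
theorem spfft {G T : Type} [Fintype G] [DecidableEq G] [Fintype T] [DecidableEq T]
    (ι : G → G) (hι : ∀ g, ι (ι g) = g) (h : G → ℂ) (h0 : ∀ g, h g ≠ 0)
    (hh : ∀ g, h (ι g) = -h g) (v : (T → G) → ℂ)
    (hv : ∀ g g', g ≠ g' → ∀ t : T → G, (∑ a, if t a = g then v (update t a g') else 0) -
      h g / h g' * ∑ a, (if t a = ι g' then v (update t a (ι g)) else 0) = 0) :
    v ∈ Submodule.span ℂ {w | ∃ (d : ℕ) (e : Fin d × Fin 2 ≃ T),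
      w = fun t => ∏ i, bet ι h (t (e (i, 0))) (t (e (i, 1)))} := by
  classical
  have hne : ∀ g, ι g ≠ g := by
    intro g hg
    have h1 := hh g
    rw [hg] at h1
    have h2 : h g + h g = 0 := by linear_combination h1
    exact h0 g (by linear_combination h2 / 2)
  obtain ⟨σ, hσ⟩ := exists_half ι hι hne
  have hE : ∀ g (t : T → G), (∑ a, if t a = g then v (update t a (ι g)) else 0) = 0 := by
    intro g t
    have h1 := hv g (ι g) (hne g).symm t
    rw [hι, hh, div_neg, div_self (h0 g)] at h1
    linear_combination h1 / 2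
  have hw : ∀ t : T → G, v t ≠ 0 → ∀ g, (Finset.univ.filter fun a => t a = g).card =
      (Finset.univ.filter fun a => t a = ι g).card := by
    intro t ht g
    refine weight_eq v g (ι g) (hE g) (fun t' => ?_) t ht
    have h1 := hE (ι g) t'
    rw [hι] at h1
    exact h1
  let u : (T → AH σ) → ℂ := liftA σ ι h v
  have hth : ∀ y : AH σ, σ (thet σ ι y) = y.2 := by
    rintro ⟨⟨⟨⟩, ⟨⟨⟩, g⟩⟩, b⟩
    cases b
    · change σ (ι g.1) = false
      rw [hσ, g.2]
      rfl
    · exact g.2
  have hcnt : ∀ t : T → AH σ, u t ≠ 0 → 2 * cntF Finset.univ t = Fintype.card T := by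
    intro t ht
    have h1 : v (fun a => thet σ ι (t a)) ≠ 0 := right_ne_zero_of_mul ht
    have h2 := card_half (T := T) hι hσ (fun a => thet σ ι (t a)) (hw _ h1)
    rw [← h2, cntF]
    congr 2
    ext a
    simp only [Finset.mem_filter, Finset.mem_univ, true_and, hth]
  let Θ : AH σ ≃ G := Equiv.ofBijective (thet σ ι) (thet_bij hι hσ)
  have hΘ : ∀ g, thet σ ι (Θ.symm g) = g := fun g => Θ.apply_symm_apply g
  let L : ((T → AH σ) → ℂ) →ₗ[ℂ] ((T → G) → ℂ) :=
    { toFun := fun f t => (∏ a, scal σ h (Θ.symm (t a)))⁻¹ * f fun a => Θ.symm (t a)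
      map_add' := fun f g => by
        funext t
        simp only [Pi.add_apply, mul_add]
      map_smul' := fun c f => by
        funext t
        simp only [Pi.smul_apply, smul_eq_mul, RingHom.id_apply]
        ring }
  have hL : L u = v := by
    funext t
    change (∏ a, scal σ h (Θ.symm (t a)))⁻¹ * ((∏ a, scal σ h (Θ.symm (t a))) *
      v fun a => thet σ ι (Θ.symm (t a))) = v t
    rw [← mul_assoc, inv_mul_cancel₀ (Finset.prod_ne_zero_iff.2 fun a _ => scal_ne h0 _), one_mul]
    congr 1
    funext a
    exact hΘ _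
  by_cases hu : ∃ t0, u t0 ≠ 0
  · obtain ⟨t0, ht0⟩ := hu
    have hj : ∀ t, u t ≠ 0 → cntF Finset.univ t = cntF Finset.univ t0 := by
      intro t ht
      have h1 := hcnt t ht
      have h2 := hcnt t0 ht0
      omega
    have hPJ : Submodule.span ℂ {u} ≤ PJ (S := Unit) (M := fun _ => Unit) (G := fun _ => Hf σ)
        (Finset.univ : Finset T) (cntF Finset.univ t0) := by
      refine core opsA opsB opsC energy omg Unit (fun _ => Unit) (fun _ => Hf σ) T
        (cntF Finset.univ t0) Finset.univ (Submodule.span ℂ {u}) ?_ ?_ ?_ ?_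
      · intro f _ t t' htt
        rw [funext fun i => htt i (Finset.mem_univ i)]
      · rintro f hf ⟨⟩ a c
        obtain ⟨k, rfl⟩ := Submodule.mem_span_singleton.1 hf
        have h1 : GG.der Finset.univ (raise (S := Unit) (M := fun _ => Unit)
            (G := fun _ => Hf σ) () a c) (k • u) = 0 := by
          have h2 := lift_raise hι hσ h0 hh v hv a c
          funext t
          have h3 := congrFun h2 t
          change (∑ i, ∑ y', raise (S := Unit) (M := fun _ => Unit)
            (G := fun _ => Hf σ) () a c (t i) y' * u (update t i y')) = 0 at h3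
          change (∑ i, ∑ y', raise (S := Unit) (M := fun _ => Unit)
            (G := fun _ => Hf σ) () a c (t i) y' * (k * u (update t i y'))) = 0
          have h4 : (∑ i, ∑ y', raise (S := Unit) (M := fun _ => Unit)
              (G := fun _ => Hf σ) () a c (t i) y' * (k * u (update t i y'))) =
              k * ∑ i, ∑ y', raise (S := Unit) (M := fun _ => Unit)
              (G := fun _ => Hf σ) () a c (t i) y' * u (update t i y') := by
            rw [Finset.mul_sum]
            refine Finset.sum_congr rfl fun i _ => ?_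
            rw [Finset.mul_sum]
            refine Finset.sum_congr rfl fun y' _ => ?_
            ring
          rw [h4, h3, mul_zero]
        rw [h1]
        exact Submodule.zero_mem _
      · intro f hf n
        obtain ⟨k, rfl⟩ := Submodule.mem_span_singleton.1 hf
        by_cases hn : n = cntF Finset.univ t0
        · have h1 : partF Finset.univ n (k • u) = k • u := by
            funext t
            rw [partF]
            by_cases h2 : u t = 0
            · rw [Pi.smul_apply, h2, smul_zero, ite_self]
            · rw [if_pos (by rw [hn]; exact hj t h2)]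
          rw [h1]
          exact hf
        · have h1 : partF Finset.univ n (k • u) = 0 := by
            funext t
            rw [partF]
            by_cases h2 : u t = 0
            · rw [Pi.smul_apply, h2, smul_zero, ite_self]
              rfl
            · rw [if_neg (by rw [hj t h2]; exact fun h3 => hn h3.symm)]
              rfl
          rw [h1]
          exact Submodule.zero_mem _
      · intro f hf t ht
        obtain ⟨k, rfl⟩ := Submodule.mem_span_singleton.1 hf
        by_contra h1
        have h2 : u t ≠ 0 := right_ne_zero_of_mul h1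
        rw [hj t h2] at ht
        exact lt_irrefl _ ht
    have hmem : u ∈ PJ (S := Unit) (M := fun _ => Unit) (G := fun _ => Hf σ)
        (Finset.univ : Finset T) (cntF Finset.univ t0) := hPJ (Submodule.mem_span_singleton_self u)
    have hmap := Submodule.mem_map_of_mem (f := L) hmem
    rw [hL] at hmap
    refine (Submodule.map_span_le L _ _).2 ?_ hmap
    rintro f ⟨e, hei, -, s, m, m', k, hk, rfl⟩
    have hcard : Fintype.card (Fin (cntF Finset.univ t0) × Fin 2) = Fintype.card T := by
      rw [Fintype.card_prod, Fintype.card_fin, Fintype.card_fin, mul_comm]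
      exact hcnt t0 ht0
    have heb : Function.Bijective e := (Fintype.bijective_iff_injective_and_card e).2 ⟨hei, hcard⟩
    let E : Fin (cntF Finset.univ t0) × Fin 2 ≃ T := Equiv.ofBijective e heb
    have hk0 : ∀ t, k t = k t0 := by
      intro t
      refine hk t t0 fun i hi => ?_
      obtain ⟨x, hx⟩ := heb.2 i
      exact absurd (Finset.mem_image.2 ⟨x, Finset.mem_univ _, hx⟩) (Finset.mem_sdiff.1 hi).2
    have hgen : L (fun t => (∏ r, ps (s r) (m r) (m' r) (t (e (r, 0))) (t (e (r, 1)))) * k t) =
        k t0 • fun t : T → G => ∏ i, bet ι h (t (E (i, 0))) (t (E (i, 1))) := by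
      funext t
      change (∏ a, scal σ h (Θ.symm (t a)))⁻¹ * ((∏ r, ps (s r) (m r) (m' r)
        (Θ.symm (t (e (r, 0)))) (Θ.symm (t (e (r, 1))))) * k fun a => Θ.symm (t a)) =
        k t0 * ∏ i, bet ι h (t (e (i, 0))) (t (e (i, 1)))
      have h1 : ∀ r, ps (s r) (m r) (m' r) (Θ.symm (t (e (r, 0)))) (Θ.symm (t (e (r, 1)))) =
          scal σ h (Θ.symm (t (e (r, 0)))) * scal σ h (Θ.symm (t (e (r, 1)))) *
            bet ι h (t (e (r, 0))) (t (e (r, 1))) := by
        intro r
        have h2 := ps_bet hι hσ h0 hh (Θ.symm (t (e (r, 0)))) (Θ.symm (t (e (r, 1))))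
        rw [hΘ, hΘ] at h2
        exact h2
      have h3 : ∏ a, scal σ h (Θ.symm (t a)) = ∏ r, (scal σ h (Θ.symm (t (e (r, 0)))) *
          scal σ h (Θ.symm (t (e (r, 1))))) := by
        rw [← Equiv.prod_comp E, Fintype.prod_prod_type]
        refine Finset.prod_congr rfl fun r _ => ?_
        rw [Fin.prod_univ_two]
        rfl
      rw [Finset.prod_congr rfl fun r _ => h1 r, Finset.prod_mul_distrib, ← h3, hk0]
      have h4 : ∏ a, scal σ h (Θ.symm (t a)) ≠ 0 :=
        Finset.prod_ne_zero_iff.2 fun a _ => scal_ne h0 _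
      field_simp
    rw [hgen]
    exact Submodule.smul_mem _ _ (Submodule.subset_span ⟨_, E, rfl⟩)
  · have h1 : v = 0 := by
      rw [← hL]
      have h2 : u = 0 := by
        funext t
        by_contra h3
        exact hu ⟨t, h3⟩
      rw [h2, map_zero]
    rw [h1]
    exact Submodule.zero_mem _

/-- **Row SPF**: the standard form. -/
theorem spf : SPFFT := by
  intro I T _ _ _ _ u hu
  have hs : ∀ p : I × Bool, sg p * sg p = 1 := by
    intro p
    unfold sg
    split_ifs <;> norm_num
  have hs0 : ∀ p : I × Bool, sg p ≠ 0 := by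
    intro p hp
    have h1 := hs p
    rw [hp, mul_zero] at h1
    exact zero_ne_one h1
  have hinv : ∀ p : I × Bool, (sg p)⁻¹ = sg p := by
    intro p
    exact inv_eq_of_mul_eq_one_right (hs p)
  have h1 := spfft (G := I × Bool) (T := T) fl (fun p => by simp [fl]) sg hs0
    (fun p => by
      obtain ⟨i, b⟩ := p
      cases b <;> simp [fl, sg]) u (fun p q hpq t => by
      rw [hu p q hpq t, div_eq_mul_inv, hinv, sub_self])
  refine Submodule.span_mono ?_ h1
  rintro w ⟨d, e, rfl⟩
  refine ⟨d, e, ?_⟩
  funext t
  refine Finset.prod_congr rfl fun i _ => ?_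
  unfold bet
  rw [hinv]

/-- The statement of `spblk`, without hypothesis. -/
theorem spblk' {G T : Type} [Fintype G] [DecidableEq G] [Fintype T] [DecidableEq T]
    (i : G → G) (hi : ∀ g, i (i g) = g) (h : G → ℂ) (h0 : ∀ g, h g ≠ 0)
    (hh : ∀ g, h (i g) = - h g) (u : (T → G) → ℂ)
    (hu : ∀ g g' : G, g ≠ g' → ∀ t : T → G,
      (∑ a, if t a = g then u (Function.update t a g') else 0) =
        h g / h g' * ∑ a, if t a = i g' then u (Function.update t a (i g)) else 0) :
    u ∈ Submodule.span ℂ {w | ∃ (d : ℕ) (e : Fin d × Fin 2 ≃ T), w = fun t : T → G =>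
      ∏ r, if t (e (r, 1)) = i (t (e (r, 0))) then (h (t (e (r, 0))))⁻¹ else 0} :=
  spblk spf i hi h h0 hh u hu

end

end Pool.Agent.UNJ
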