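import Pool.Agent.Lib.UNJ.Rows
import Pool.Agent.Lib.UNJ.Glue
import Pool.Agent.Lib.UNJ.SpFft
import Pool.Agent.Lib.UNIT.UB

/-!
# Row UB of UNJ: all blocks, hermitian and alternating
-/

set_option autoImplicit false
set_option linter.unusedSectionVars false

open Function Pool.Agent.HCM Pool.Agent.RAT Pool.Agent.UNIT

namespace Pool.Agent.UNJ

/-- One alternating block. -/
def SpF : Prop :=
  ∀ (G T : Type) [Fintype G] [DecidableEq G] [Fintype T] [DecidableEq T] (ι : G → G),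
    (∀ g, ι (ι g) = g) → ∀ h : G → ℂ, (∀ g, h g ≠ 0) → (∀ g, h (ι g) = -h g) →
    ∀ v : (T → G) → ℂ, (∀ g g', g ≠ g' → ∀ t,
      (∑ a, if t a = g then v (update t a g') else 0) -
        h g / h g' * ∑ a, (if t a = ι g' then v (update t a (ι g)) else 0) = 0) →
    v ∈ Submodule.span ℂ {w | ∃ (d : ℕ) (e : Fin d × Fin 2 ≃ T), w = fun t => ∏ i,
      if t (e (i, 1)) = ι (t (e (i, 0))) then (h (t (e (i, 0))))⁻¹ else 0}

namespace VB

noncomputable section

variable {κ : Type} {K G : κ → Type} [∀ k, Field (K k)] [∀ k, Fintype (G k)]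

/-- Products of pairings and determinants with any index sets. -/
structure PD (ι : ∀ k, G k → G k) (K : κ → Type) [∀ k, Field (K k)] (T : Type) where
  /-- the pairings -/
  J1 : Type
  /-- the determinants -/
  J2 : Type
  f1 : Fintype J1
  f2 : Fintype J2
  /-- blocks of the pairings -/
  pk : J1 → κ
  /-- embeddings of the pairings -/
  pτ : ∀ i, K (pk i) →+* ℂ
  /-- blocks of the determinants -/
  blk : J2 → κ
  /-- embeddings of the determinants -/
  τ : ∀ j, K (blk j) →+* ℂ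
  hb : ∀ j g, ι (blk j) g = g
  /-- places -/
  e : (J1 × Fin 2) ⊕ (Σ j, G (blk j)) ≃ T

attribute [instance] PD.f1 PD.f2

variable (h : ∀ k, G k → K k) {ι : ∀ k, G k → G k} {T : Type}

/-- The product. -/
def PD.val (D : PD ι K T) (t : T → LU K G) : ℂ :=
  (∏ i, pc ι h (D.pk i) (D.pτ i) (t (D.e (Sum.inl (i, 0)))) (t (D.e (Sum.inl (i, 1))))) *
    ∏ j, dc (D.blk j) (D.τ j) fun g => t (D.e (Sum.inr ⟨j, g⟩))

theorem PD.isBT (D : PD ι K T) : IsBT ι h (D.val h) := by
  obtain ⟨J1, J2, f1, f2, pk, pτ, blk, τ, hb, e⟩ := D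
  let φ1 : Fin (Fintype.card J1) ≃ J1 := (Fintype.equivFin J1).symm
  let φ2 : Fin (Fintype.card J2) ≃ J2 := (Fintype.equivFin J2).symm
  let e' : (Fin (Fintype.card J1) × Fin 2) ⊕ (Σ j, G (blk (φ2 j))) ≃ T :=
    (Equiv.sumCongr (Equiv.prodCongr φ1 (Equiv.refl _))
      (Equiv.sigmaCongrLeft (β := fun j => G (blk j)) φ2)).trans e
  refine ⟨_, _, fun i => pk (φ1 i), fun i => pτ (φ1 i), fun j => blk (φ2 j), fun j => τ (φ2 j), e',
    fun j g => hb (φ2 j) g, ?_⟩
  funext t
  unfold PD.val bt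
  congr 1
  · exact (Equiv.prod_comp φ1 fun i => pc ι h (pk i) (pτ i) (t (e (Sum.inl (i, 0))))
      (t (e (Sum.inl (i, 1))))).symm
  · exact (Equiv.prod_comp φ2 fun j => dc (blk j) (τ j) fun g => t (e (Sum.inr ⟨j, g⟩))).symm

/-- Gluing. -/
def PD.glue {Bk : Type} [Fintype Bk] {c : T → Bk} (D : ∀ b, PD ι K {a // c a = b}) :
    PD ι K T where
  J1 := Σ b, (D b).J1
  J2 := Σ b, (D b).J2
  f1 := inferInstance
  f2 := inferInstance
  pk := fun i => (D i.1).pk i.2
  pτ := fun i => (D i.1).pτ i.2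
  blk := fun j => (D j.1).blk j.2
  τ := fun j => (D j.1).τ j.2
  hb := fun j g => (D j.1).hb j.2 g
  e := (Equiv.sumCongr (Equiv.sigmaProdDistrib (fun b => (D b).J1) (Fin 2))
    (Equiv.sigmaAssoc fun (b : Bk) (j : (D b).J2) => G ((D b).blk j))).trans
    ((Equiv.sigmaSumDistrib (fun b => (D b).J1 × Fin 2)
      (fun b => Σ j : (D b).J2, G ((D b).blk j))).symm.trans
    ((Equiv.sigmaCongrRight fun b => (D b).e).trans (Equiv.sigmaFiberEquiv c)))

theorem PD.glue_val {Bk : Type} [Fintype Bk] {c : T → Bk} (D : ∀ b, PD ι K {a // c a = b})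
    (t : T → LU K G) : (PD.glue D).val h t = ∏ b, (D b).val h fun a => t a.1 := by
  have h1 : (PD.glue D).val h t =
      (∏ i : Σ b, (D b).J1, pc ι h ((D i.1).pk i.2) ((D i.1).pτ i.2)
        (t ((D i.1).e (Sum.inl (i.2, 0))).1) (t ((D i.1).e (Sum.inl (i.2, 1))).1)) *
      ∏ j : Σ b, (D b).J2, dc ((D j.1).blk j.2) ((D j.1).τ j.2) fun g =>
        t ((D j.1).e (Sum.inr ⟨j.2, g⟩)).1 := rfl
  rw [h1, Fintype.prod_sigma, Fintype.prod_sigma, ← Finset.prod_mul_distrib]
  rfl

theorem pc_ne {k : κ} {τ : K k →+* ℂ} {y y' : LU K G} (h1 : pc ι h k τ y y' ≠ 0) :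
    ∃ g : G k, y = ⟨⟨k, g⟩, τ⟩ ∧ y' = ⟨⟨k, ι k g⟩, cj τ⟩ := by
  by_contra h2
  push Not at h2
  refine h1 (Finset.sum_eq_zero fun g _ => if_neg ?_)
  rintro ⟨h3, h4⟩
  exact h2 g h3 h4

theorem dc_ne {k : κ} {τ : K k →+* ℂ} {w : G k → LU K G} (h1 : dc k τ w ≠ 0) :
    ∃ π : Equiv.Perm (G k), w = fun g => ⟨⟨k, π g⟩, τ⟩ := by
  by_contra h2
  push Not at h2
  refine h1 (Finset.sum_eq_zero fun π _ => ?_)
  rw [if_neg (h2 π), mul_zero]

theorem el_comp {Λ Λ' P : Type} [DecidableEq Λ] [DecidableEq Λ'] [Fintype P] [DecidableEq P]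
    {j : Λ' → Λ} (hj : Injective j) (p q : Λ') (φ : (P → Λ) → ℂ) (s : P → Λ') :
    Gl.el (j p) (j q) φ (fun a => j (s a)) = Gl.el p q (fun s => φ fun a => j (s a)) s := by
  unfold Gl.el
  refine Finset.sum_congr rfl fun a _ => ?_
  refine if_congr hj.eq_iff ?_ rfl
  congr 1
  funext a'
  by_cases h : a' = a
  · subst h
    rw [update_self, update_self]
  · rw [update_of_ne h, update_of_ne h]

theorem ite_iff {p q : Prop} {dp : Decidable p} {dq : Decidable q} {a b : ℂ} (h : p ↔ q) :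
    @ite ℂ p dp a b = @ite ℂ q dq a b := by
  by_cases hp : p
  · rw [if_pos hp, if_pos (h.mp hp)]
  · rw [if_neg hp, if_neg fun hq => hp (h.mpr hq)]

section blocks

variable {P : Type} [Fintype P] [DecidableEq P]

open Classical in
/-- The hermitian block. -/
theorem one_cm [∀ k, NumberField (K k)] [∀ k, Nonempty (G k)] {k : κ}
    (hcm : NumberField.IsCMField (K k)) (hi : ∀ g, ι k g = g) (h0 : ∀ g, h k g ≠ 0)
    (hr : ∀ g (τ : K k →+* ℂ), (τ (h k g)).im = 0) (φ : (P → LU K G) → ℂ)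
    (hφ : ∀ x, φ x ≠ 0 → ∀ a, (x a).1.1 = k)
    (hu : ∀ (g g' : G k) (τ : K k →+* ℂ), g ≠ g' → ∀ x, Gl.el ⟨⟨k, g⟩, τ⟩ ⟨⟨k, g'⟩, τ⟩ φ x =
      τ (h k g) / τ (h k g') * Gl.el ⟨⟨k, g'⟩, cj τ⟩ ⟨⟨k, g⟩, cj τ⟩ φ x) :
    φ ∈ Submodule.span ℂ {w | ∃ D : PD ι K P, w = D.val h} := by
  let j : LU (fun _ : Unit => K k) (fun _ : Unit => G k) → LU K G :=
    fun y => ⟨⟨k, y.1.2⟩, y.2⟩
  have hj : Injective j := by
    rintro ⟨⟨⟨⟩, g⟩, τ⟩ ⟨⟨⟨⟩, g'⟩, τ'⟩ h1
    simp only [j, Sigma.mk.injEq, heq_eq_eq, true_and] at h1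
    obtain ⟨h1, h2⟩ := h1
    rw [h1]
    simp_all
  have hrg : ∀ y : LU K G, y.1.1 = k → ∃ z, y = j z := by
    rintro ⟨⟨k', g⟩, τ⟩ rfl
    exact ⟨⟨⟨(), g⟩, τ⟩, rfl⟩
  have h1 := ub Unit (fun _ => K k) (fun _ => G k) (fun _ g => h k g)
    (fun _ g => ⟨h0 g, hr g⟩) P (fun s => φ fun a => j (s a)) (by
      rintro ⟨⟩ g g' τ hg s
      have h2 := hu g g' τ hg fun a => j (s a)
      have h3 := el_comp hj (⟨⟨(), g⟩, τ⟩) (⟨⟨(), g'⟩, τ⟩) φ s
      have h4 := el_comp hj (⟨⟨(), g'⟩, cj τ⟩) (⟨⟨(), g⟩, cj τ⟩) φ s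
      have h5 := h3.symm.trans (h2.trans (congrArg _ h4))
      unfold UNIT.root
      rw [sub_eq_zero]
      unfold Gl.el at h5
      convert h5)
  refine Gl.push j _ _ ?_ φ ?_ h1
  · rintro w ⟨d, r, pk, pτ, blk, τ, e, rfl⟩
    let D : PD ι K P := ⟨Fin d, Fin r, inferInstance, inferInstance, fun _ => k, pτ, fun _ => k, τ,
      fun _ g => hi g, e⟩
    refine ⟨D.val h, ⟨D, rfl⟩, fun s => ?_, fun t ht => ?_⟩
    · unfold PD.val UNIT.bt
      congr 1
      · refine Finset.prod_congr rfl fun i _ => ?_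
        change pc ι h k (pτ i) (j _) (j _) = UNIT.pc (K := fun _ : Unit => K k)
          (G := fun _ : Unit => G k) _ (pk i) (pτ i) _ _
        unfold pc UNIT.pc
        refine Finset.sum_congr rfl fun g _ => ?_
        refine ite_iff (and_congr ?_ ?_)
        · exact hj.eq_iff (b := ⟨⟨(), g⟩, pτ i⟩)
        · rw [hi]
          exact hj.eq_iff (b := ⟨⟨(), g⟩, cj (pτ i)⟩)
      · refine Finset.prod_congr rfl fun l _ => ?_
        change dc k (τ l) (fun g => j _) = dc (K := fun _ : Unit => K k)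
          (G := fun _ : Unit => G k) (blk l) (τ l) _
        unfold dc
        refine Finset.sum_congr rfl fun π _ => ?_
        congr 1
        refine ite_iff ?_
        constructor
        · intro h2
          funext g
          exact hj (congrFun h2 g)
        · intro h2
          funext g
          rw [show s (D.e (Sum.inr ⟨l, g⟩)) = _ from congrFun h2 g]
    · have h2 : ∀ a, (t a).1.1 = k := by
        intro a
        obtain ⟨z, rfl⟩ := D.e.surjective a
        have h3 := left_ne_zero_of_mul ht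
        have h4 := right_ne_zero_of_mul ht
        rw [Finset.prod_ne_zero_iff] at h3 h4
        rcases z with ⟨i, ε⟩ | ⟨l, g⟩
        · obtain ⟨g, h5, h6⟩ := pc_ne h (h3 i (Finset.mem_univ i))
          fin_cases ε
          · exact (congrArg (fun y => y.1.1) h5).trans rfl
          · exact (congrArg (fun y => y.1.1) h6).trans rfl
        · obtain ⟨π, h5⟩ := dc_ne (h4 l (Finset.mem_univ l))
          exact congrArg (fun y => y.1.1) (congrFun h5 g)
      choose s hs using fun a => hrg (t a) (h2 a)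
      exact ⟨s, funext hs⟩
  · intro t ht
    choose s hs using fun a => hrg (t a) (hφ t ht a)
    exact ⟨s, funext hs⟩

open Classical in
/-- The alternating block. -/
theorem one_sp (sp : SpF) {k : κ} (τ : K k →+* ℂ) (hτ : cj τ = τ) (hi : ∀ g, ι k (ι k g) = g)
    (h0 : ∀ g, h k g ≠ 0) (hh : ∀ g, h k (ι k g) = -h k g) (φ : (P → LU K G) → ℂ)
    (hφ : ∀ x, φ x ≠ 0 → ∀ a, ∃ g : G k, x a = ⟨⟨k, g⟩, τ⟩)
    (hu : ∀ (g g' : G k), g ≠ g' → ∀ x, Gl.el ⟨⟨k, g⟩, τ⟩ ⟨⟨k, g'⟩, τ⟩ φ x =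
      τ (h k g) / τ (h k g') * Gl.el ⟨⟨k, ι k g'⟩, cj τ⟩ ⟨⟨k, ι k g⟩, cj τ⟩ φ x) :
    φ ∈ Submodule.span ℂ {w | ∃ D : PD ι K P, w = D.val h} := by
  let j : G k → LU K G := fun g => ⟨⟨k, g⟩, τ⟩
  have hj : Injective j := by
    intro g g' h1
    simp only [j, Sigma.mk.injEq, heq_eq_eq, true_and, and_true] at h1
    exact h1
  have h1 := sp (G k) P (ι k) hi (fun g => τ (h k g)) (fun g => (map_ne_zero τ).mpr (h0 g))
    (fun g => by rw [hh, map_neg]) (fun s => φ fun a => j (s a)) (by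
      intro g g' hg s
      have h2 := hu g g' hg fun a => j (s a)
      rw [hτ] at h2
      have h3 := el_comp hj g g' φ s
      have h4 := el_comp hj (ι k g') (ι k g) φ s
      have h5 := h3.symm.trans (h2.trans (congrArg _ h4))
      rw [sub_eq_zero]
      unfold Gl.el at h5
      convert h5)
  refine Gl.push j _ _ ?_ φ ?_ h1
  · rintro w ⟨d, e, rfl⟩
    let D : PD ι K P := ⟨Fin d, Empty, inferInstance, inferInstance, fun _ => k, fun _ => τ,
      Empty.elim, fun l => l.elim, fun l => l.elim, (Equiv.sumEmpty _ _).trans e⟩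
    refine ⟨D.val h, ⟨D, rfl⟩, fun s => ?_, fun t ht => ?_⟩
    · have h2 : D.val h (fun a => j (s a)) =
          ∏ i, pc ι h k τ (j (s (e (i, 0)))) (j (s (e (i, 1)))) := by
        have h3 : (∏ l : D.J2, dc (D.blk l) (D.τ l) fun g => j (s (D.e (Sum.inr ⟨l, g⟩)))) = 1 :=
          Finset.prod_eq_one fun l _ => Empty.elim l
        unfold PD.val
        rw [h3, mul_one]
        rfl
      rw [h2]
      refine Finset.prod_congr rfl fun i _ => ?_
      unfold pc
      rw [Finset.sum_eq_single (s (e (i, 0)))]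
      · refine if_congr ?_ rfl rfl
        rw [hτ]
        constructor
        · rintro ⟨-, h4⟩
          exact hj h4
        · intro h4
          exact ⟨rfl, congrArg j h4⟩
      · intro g _ hg
        rw [if_neg]
        rintro ⟨h4, -⟩
        exact hg (hj h4).symm
      · intro h4
        exact absurd (Finset.mem_univ _) h4
    · have h2 : ∀ a, ∃ g, t a = j g := by
        intro a
        obtain ⟨z, rfl⟩ := D.e.surjective a
        have h3 := left_ne_zero_of_mul ht
        rw [Finset.prod_ne_zero_iff] at h3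
        rcases z with ⟨i, ε⟩ | ⟨l, g⟩
        · obtain ⟨g, h5, h6⟩ := pc_ne h (h3 i (Finset.mem_univ i))
          rw [show D.pτ i = τ from rfl, hτ] at h6
          fin_cases ε
          · exact ⟨g, h5⟩
          · exact ⟨ι k g, h6⟩
        · exact l.elim
      choose s hs using h2
      exact ⟨s, funext hs⟩
  · intro t ht
    choose s hs using hφ t ht
    exact ⟨s, funext hs⟩

/-- No letters. -/
theorem one_none (φ : (P → LU K G) → ℂ) (hφ : ∀ x, φ x ≠ 0 → IsEmpty P) :
    φ ∈ Submodule.span ℂ {w | ∃ D : PD ι K P, w = D.val h} := by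
  by_cases h1 : ∃ x, φ x ≠ 0
  · obtain ⟨x, hx⟩ := h1
    have := hφ x hx
    let D : PD ι K P := ⟨Empty, Empty, inferInstance, inferInstance, Empty.elim, fun l => l.elim,
      Empty.elim, fun l => l.elim, fun l => l.elim, (Equiv.sumEmpty _ _).trans
        ((Equiv.equivEmpty (Empty × Fin 2)).trans (Equiv.equivEmpty P).symm)⟩
    have h2 : φ = φ x • D.val h := by
      funext t
      have h3 : D.val h t = 1 := by
        unfold PD.val
        rw [Finset.prod_eq_one fun i _ => Empty.elim i, Finset.prod_eq_one fun i _ => Empty.elim i,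
          one_mul]
      rw [Pi.smul_apply, h3, smul_eq_mul, mul_one]
      exact congrArg φ (Subsingleton.elim _ _)
    rw [h2]
    exact Submodule.smul_mem _ _ (Submodule.subset_span ⟨D, rfl⟩)
  · push Not at h1
    rw [show φ = 0 from funext h1]
    exact Submodule.zero_mem _

end blocks

end

end VB

open Classical VB in
/-- **UB**: all blocks. -/
theorem ub_of (sp : SpF) : UB := by
  intro κ _ K G _ _ _ _ ι h hb T _ _ u hu
  let β : LU K G → Σ k, Option (K k →+* ℂ) := fun y =>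
    ⟨y.1.1, if ∀ g, ι y.1.1 g = g then none else some y.2⟩
  have hcj : ∀ (k : κ), ¬ (∀ g, ι k g = g) → ∀ τ : K k →+* ℂ, cj τ = τ := by
    intro k hk τ
    rcases (hb k).2 with ⟨_, h1⟩ | ⟨h1, _⟩
    · exact absurd (fun g => (h1 g).1) hk
    · exact NumberField.IsTotallyReal.complexEmbedding_isReal τ
  let S : ∀ (P : Type) [Fintype P] [DecidableEq P], Set ((P → LU K G) → ℂ) :=
    fun P _ _ => {w | ∃ D : PD ι K P, w = D.val h}
  let rel : LU K G → LU K G → LU K G → LU K G → ℂ → Prop := fun p q p' q' z =>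
    ∃ (k : κ) (g g' : G k) (τ : K k →+* ℂ), g ≠ g' ∧ p = ⟨⟨k, g⟩, τ⟩ ∧ q = ⟨⟨k, g'⟩, τ⟩ ∧
      p' = ⟨⟨k, ι k g'⟩, cj τ⟩ ∧ q' = ⟨⟨k, ι k g⟩, cj τ⟩ ∧ z = τ (h k g) / τ (h k g')
  have h1 := Gl.glue (β := β) S rel ?_ ?_ u ?_
  · refine Submodule.span_le.mpr ?_ h1
    rintro w ⟨c, ψ, hψ, rfl⟩
    choose D hD using hψ
    refine Submodule.subset_span ?_
    have h2 : (fun t : T → LU K G => ∏ b, ψ b fun a => t a.1) = (PD.glue D).val h := by
      funext t
      rw [PD.glue_val]
      exact Finset.prod_congr rfl fun b _ => congrFun (hD b) _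
    rw [h2]
    exact (PD.glue D).isBT h
  · rintro p q p' q' z ⟨k, g, g', τ, hg, rfl, rfl, rfl, rfl, rfl⟩
    by_cases hk : ∀ g, ι k g = g
    · simp only [β, if_pos hk, and_self]
    · simp only [β, if_neg hk, hcj k hk τ, and_self]
  · rintro ⟨k, o⟩ P _ _ φ hφ hkill
    have hβ : ∀ (g : G k) (τ : K k →+* ℂ), β ⟨⟨k, g⟩, τ⟩ =
        ⟨k, if ∀ g, ι k g = g then none else some τ⟩ := fun _ _ => rfl
    have hfst : ∀ y : LU K G, ∀ o', β y = ⟨k, o'⟩ → y.1.1 = k :=
      fun y o' h2 => congrArg (fun z => z.1) h2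
    by_cases hk : ∀ g, ι k g = g
    · cases o with
      | none =>
        refine one_cm h ((hb k).cm hk) hk (hb k).ne ?_ φ (fun x hx a => hfst _ _ (hφ x hx a)) ?_
        · intro g τ
          rcases (hb k).2 with ⟨_, h2⟩ | ⟨_, h2⟩
          · exact (h2 g).2 τ
          · exfalso
            have h3 := (h2 g).2
            rw [hk g] at h3
            exact (hb k).ne g (self_eq_neg.1 h3)
        · intro g g' τ hg x
          have h2 := hkill _ _ _ _ _ ⟨k, g, g', τ, hg, rfl, rfl, rfl, rfl, rfl⟩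
            (by rw [hβ, if_pos hk]) x
          rw [hk, hk] at h2
          exact h2
      | some τ =>
        refine one_none h φ fun x hx => ⟨fun a => ?_⟩
        have h2 := hφ x hx a
        generalize x a = y at h2
        obtain ⟨⟨k', g⟩, τ'⟩ := y
        have h3 := hfst _ _ h2
        subst h3
        rw [hβ, if_pos hk] at h2
        simp at h2
    · cases o with
      | none =>
        refine one_none h φ fun x hx => ⟨fun a => ?_⟩
        have h2 := hφ x hx a
        generalize x a = y at h2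
        obtain ⟨⟨k', g⟩, τ'⟩ := y
        have h3 := hfst _ _ h2
        subst h3
        rw [hβ, if_neg hk] at h2
        simp at h2
      | some τ =>
        have h4 : ∀ g, ι k (ι k g) = g ∧ h k (ι k g) = -h k g := by
          rcases (hb k).2 with ⟨_, h1⟩ | ⟨_, h1⟩
          · exact absurd (fun g => (h1 g).1) hk
          · exact h1
        refine one_sp h sp τ (hcj k hk τ) (fun g => (h4 g).1) (hb k).ne (fun g => (h4 g).2) φ
          (fun x hx a => ?_) ?_
        · have h2 := hφ x hx a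
          generalize x a = y at h2
          obtain ⟨⟨k', g⟩, τ'⟩ := y
          have h3 := hfst _ _ h2
          subst h3
          rw [hβ, if_neg hk] at h2
          simp only [Sigma.mk.injEq, heq_eq_eq, true_and, Option.some.injEq] at h2
          subst h2
          exact ⟨g, rfl⟩
        · intro g g' hg x
          exact hkill _ _ _ _ _ ⟨k, g, g', τ, hg, rfl, rfl, rfl, rfl, rfl⟩
            (by rw [hβ, if_neg hk]) x
  · rintro p q p' q' z ⟨k, g, g', τ, hg, rfl, rfl, rfl, rfl, rfl⟩ t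
    have h2 := hu k g g' τ hg t
    unfold root at h2
    rw [sub_eq_zero] at h2
    exact h2

open Classical in
theorem spF : SpF := by
  intro G T _ _ _ _ ι hι h h0 hh v hv
  have h1 := spfft ι hι h h0 hh v hv
  unfold bet at h1
  convert h1

/-- **UB**: all blocks. -/
theorem ub : UB := ub_of spF

end Pool.Agent.UNJ
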